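import Pool.Agent.Helper71.UN.Defs

/-!
# Project UN, part (E): statements of the number theory modules
-/

set_option autoImplicit false

open Set Filter Topology
open scoped ComplexConjugate

noncomputable section

namespace Pool.Agent.Helper56.UN

open Pool.Agent.Helper56.FM (Gq)

/-- A non-real root `β` of an irreducible rational cubic, no power of `β` is rational; `t` is the real root. -/
structure CubI (β : ℂ) (p q r : ℚ) (t : ℝ) : Prop where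
  im : β.im ≠ 0
  cub : β ^ 3 + (p : ℂ) * β ^ 2 + (q : ℂ) * β + (r : ℂ) = 0
  irr : ∀ x : ℚ, x ^ 3 + p * x ^ 2 + q * x + r ≠ 0
  nrat : ∀ n : ℕ, n ≠ 0 → ∀ x : ℚ, β ^ n ≠ (x : ℂ)
  real : t ^ 3 + (p : ℝ) * t ^ 2 + (q : ℝ) * t + (r : ℝ) = 0
  tr : 2 * β.re = -((p : ℝ) + t)
  ns : Complex.normSq β = t ^ 2 + p * t + q

/-- `c_j = c (t / β) ^ j`. -/
def cj (c : ℂ) (t : ℝ) (β : ℂ) (j : ℤ) : ℂ := c * ((t : ℂ) / β) ^ j

/-- **TR** (transfer to the real root).  PROOF.  `t ≠ 0` and `β ≠ 0` (`x = 0` is not a root, so `r ≠ 0`).  Multiply by `β ^ N`, `N = |i| + |j| + 1`: `P(β) = 0` for the rational polynomial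
`P = x X^(i+N) + y X^(i+N-1) - x' X^(j+N) - y' X^(j+N-1)` (natural exponents `(i+N).toNat` etc.).  `f = X³ + C p X² + C q X + C r` is monic of degree `3` without a rational root, so irreducible (`Polynomial.irreducible_iff_roots_eq_zero_of_degree_le_three`), so
`f = minpoly ℚ β` and `f ∣ P` (`minpoly.dvd`), `f(t) = 0`, so `P(t) = 0`; divide by `t ^ N`.  (The first steps are in `Pool/Agent/Helper56/FN/M_NR.lean`, private theorems `fNR_*`; there `f = X³ + C v X² + C w X - C u`.) -/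
def StTR : Prop := ∀ (β : ℂ) (p q r : ℚ) (t : ℝ), CubI β p q r t → ∀ (i j : ℤ) (x y x' y' : ℚ),
  β ^ i * ((x : ℂ) + (y : ℂ) * β⁻¹) = β ^ j * ((x' : ℂ) + (y' : ℂ) * β⁻¹) →
  t ^ i * ((x : ℝ) + (y : ℝ) * t⁻¹) = t ^ j * ((x' : ℝ) + (y' : ℝ) * t⁻¹)

/-- **CC** (the planes; hypothesis `hT : StTR`).  PROOF.  `β⁻¹` is not real.  `c = 1 + e I` with `e = (Re β⁻¹ - t⁻¹) / Im β⁻¹`: `Re c = 1`, `Re (c β⁻¹) = Re β⁻¹ - e Im β⁻¹ = t⁻¹`.  For `u = β^j (x + y β⁻¹)`: `c_j u = t^j c (x + y β⁻¹)` (`(t/β)^j β^j = t^j`, `div_zpow`, `β ≠ 0`, `t ≠ 0`), so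
`Re (c_j u) = t^j (x + y t⁻¹)`; by `hT` the value for `k` is the same.  `Re (c_1) = 1`: apply this to `u = 1 = β^0 (1 + 0 β⁻¹) = β^1 (0 + 1 β⁻¹)`: `Re (c_1 1) = Re (c_0 1) = Re c = 1`.  `c_1 ≠ c_0`: else `t / β = 1` (`c ≠ 0`), `β = t` real. -/
def StCC : Prop := ∀ (β : ℂ) (p q r : ℚ) (t : ℝ), CubI β p q r t → ∃ c : ℂ, c.re = 1 ∧
  (cj c t β 1).re = 1 ∧ cj c t β 1 ≠ c ∧
  ∀ (j k : ℤ) (u : ℂ), Gq β j u → Gq β k u → ((cj c t β j - cj c t β k) * u).re = 0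

/-- **IN** (intersections).  PROOF.  The four numbers `β^j, β^(j-1), β^k, β^(k-1)` are in the field `ℚ(β)` of degree `≤ 3` over `ℚ` (as in `dep_JJ`, file `Pool/Agent/Helper56/FM/M_JJ.lean`: finrank of `IntermediateField.adjoin ℚ {β}`, `LinearIndependent.fintype_card_le_finrank`,
`Fintype.not_linearIndependent_iff`), so `g 0 β^j + g 1 β^(j-1) + g 2 β^k + g 3 β^(k-1) = 0` with rational numbers `g i`, not all zero.  `u = g 0 β^j + g 1 β^(j-1) = - g 2 β^k - g 3 β^(k-1)`.  If `u = 0` then `g 0 β + g 1 = 0`, `g 2 β + g 3 = 0` (`β ≠ 0`), and `Im β ≠ 0`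
gives `g = 0`. -/
def StIN : Prop := ∀ (β : ℂ) (p q r : ℚ) (t : ℝ), CubI β p q r t → ∀ j k : ℤ,
  ∃ u : ℂ, u ≠ 0 ∧ Gq β j u ∧ Gq β k u

/-- **RT** (rational solutions).  PROOF.  `u₁ = β^j (x₁ + y₁ β⁻¹)`, `u₂ = β^j (x₂ + y₂ β⁻¹)`, `w = β^j (x + y β⁻¹)`, rational numbers.  `D = x₁ y₂ - x₂ y₁ ≠ 0` (if `D = 0` then, as `u₁ ≠ 0`, `(x₂, y₂)` is a rational multiple of `(x₁, y₁)`, so `u₂` is a real multiple of `u₁` and
`(u₂ * conj u₁).im = 0`).  By Cramer `w = l u₁ - m u₂` with rational `l`, `m`. -/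
def StRT : Prop := ∀ (β : ℂ), β ≠ 0 → ∀ (j : ℤ) (u₁ u₂ w : ℂ), Gq β j u₁ → Gq β j u₂ → Gq β j w →
  (u₂ * conj u₁).im ≠ 0 → ∃ l m : ℚ, w = (l : ℂ) * u₁ - (m : ℂ) * u₂

/-- **MD** (the moduli).  PROOF.  `t ≠ 0` (`x = 0` is not a root, `r ≠ 0`).  If `‖β‖ = |t|` then `‖β‖² = normSq β = t² + p t + q = t²`, so `p t + q = 0`; `p ≠ 0` would give a rational root `t = -q/p`; so `p = q = 0` and `β³ = -r` is rational, contradiction to `nrat 3`. -/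
def StMD : Prop := ∀ (β : ℂ) (p q r : ℚ) (t : ℝ), CubI β p q r t → t ≠ 0 ∧ ‖β‖ ≠ |t|

/-- **RE** (powers are not real).  PROOF.  By induction `β^n = x + y β + z β²` with rational `x y z` (from `cub`).  If `(β^n).im = 0` then `(y + 2 z Re β) Im β = 0`, so `y + 2 z Re β = 0`.  If `z ≠ 0` then `Re β` is rational and `t = -p - 2 Re β` is a rational root, contradiction to `irr`.
So `z = 0`, `y = 0` and `β^n = x`, contradiction to `nrat`. -/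
def StRE : Prop := ∀ (β : ℂ) (p q r : ℚ) (t : ℝ), CubI β p q r t → ∀ n : ℕ, n ≠ 0 → (β ^ n).im ≠ 0

/-- **DN** (density of the powers of a unit).  PROOF.  Let `θ = arg z`, so `z = exp (θ I)`; `θ / (2 π)` is irrational (otherwise `z ^ n = 1` for some `n ≥ 1`).  Possible: `AddCircle` (`AddCircle.dense_zmultiples_iff...`, `dense_or_cyclic`), or directly: by compactness of the circle (sequence `z^n`) there are
`m < m'` with `‖z^m - z^m'‖ < ρ`, so `w = z^(m'-m)` is `exp (φ I)` with `0 < |φ| < 2 ρ` (say), and the powers `w^i`, `i = 0, 1, ...`, `exp (i φ I)` come `ρ`-close to every point of the circle, infinitely often (choose `i ≥ N` with `|i φ - (arg u + 2 π s)| ≤ |φ|` for a large integer `s` of the right sign). -/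
def StDN : Prop := ∀ z : ℂ, ‖z‖ = 1 → (∀ n : ℕ, n ≠ 0 → z ^ n ≠ 1) → ∀ u : ℂ, ‖u‖ = 1 →
  ∀ ρ : ℝ, 0 < ρ → ∀ N : ℕ, ∃ n : ℕ, N ≤ n ∧ ‖z ^ n - u‖ < ρ

/-- **FR** (far labels in a given direction; hypotheses `hm : StMD`, `he : StRE`, `hd : StDN`).  PROOF.  Let `ρ₁ = ‖t/β‖ = |t| / ‖β‖ ≠ 1`.  Case `ρ₁ > 1`: `z = (t/β) / ρ₁`, `k = n`; case `ρ₁ < 1`: `z = (β/t) ρ₁`, `k = -n`.  In both cases `‖z‖ = 1`, `(t/β)^k = R^n z^n` with `R > 1` (`R = ρ₁` or `ρ₁⁻¹`);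
`z^n ≠ 1`: otherwise `(t/β)^n` (or the inverse) is a real number, so `β^n` is real, contradiction to `he`.  `c_k = c R^n z^n`.  Choose `N` with `‖c‖ R^N > M` and `R^n > ..` for `n ≥ N`, and by `hd` an `n ≥ N` with `‖z^n - u'‖ < ρ`, where `u' = (‖c‖ / c) u`: then `‖c_k - ‖c_k‖ u‖ = ‖c_k‖ ‖(c/‖c‖) z^n - u‖ = ‖c_k‖ ‖z^n - u'‖`. -/
def StFR : Prop := ∀ (β : ℂ) (p q r : ℚ) (t : ℝ), CubI β p q r t → ∀ c u : ℂ, c ≠ 0 → ‖u‖ = 1 →
  ∀ ρ : ℝ, 0 < ρ → ∀ M : ℝ, ∃ k : ℤ, M < ‖cj c t β k‖ ∧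
    ‖cj c t β k - (‖cj c t β k‖ : ℂ) * u‖ ≤ ρ * ‖cj c t β k‖

end Pool.Agent.Helper56.UN
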