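import Pool.Agent.Helper56.UN.St

/-!
# Project UN, part (E): the limit configuration
-/

set_option autoImplicit false
set_option linter.unusedSimpArgs false

open Set Filter Topology
open scoped ComplexConjugate

noncomputable section

namespace Pool.Agent.Helper56.UN

open Pool.Agent.Helper71.UN

/-- The solution of `Re (p x) = 0`, `Re (q (x - 1)) = 0`. -/
def FF (p q : ℂ) : ℂ := -(Complex.I * conj p * ((q.re / (q * conj p).im : ℝ) : ℂ))

/-- The solution of `Re (p d) = A`, `Re (q d) = B`. -/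
def GG (p q : ℂ) (A B : ℝ) : ℂ :=
  Complex.I * ((B : ℂ) * conj p - (A : ℂ) * conj q) * (((p * conj q).im⁻¹ : ℝ) : ℂ)

/-- The value `W`. -/
def WW (e : ℝ) (q y : ℂ) (h : ℝ) : ℝ := -(e * (q * y).im * h) / Complex.normSq q

theorem FF_uniq {p q x : ℂ} (h : (q * conj p).im ≠ 0) (h1 : (p * x).re = 0)
    (h2 : (q * (x - 1)).re = 0) : x = FF p q := by
  unfold FF
  obtain ⟨D, hD⟩ : ∃ D, D = (q * conj p).im := ⟨_, rfl⟩
  rw [← hD] at h ⊢
  simp only [Complex.mul_re, Complex.mul_im, Complex.sub_re, Complex.sub_im, Complex.one_re,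
    Complex.one_im, Complex.conj_re, Complex.conj_im] at hD h1 h2
  apply Complex.ext
  · simp only [Complex.neg_re, Complex.mul_re, Complex.mul_im, Complex.I_re, Complex.I_im,
      Complex.conj_re, Complex.conj_im, Complex.ofReal_re, Complex.ofReal_im]
    rw [← mul_right_inj' h]
    field_simp
    rw [hD]
    linear_combination (q.im) * h1 - p.im * h2
  · simp only [Complex.neg_im, Complex.mul_re, Complex.mul_im, Complex.I_re, Complex.I_im,
      Complex.conj_re, Complex.conj_im, Complex.ofReal_re, Complex.ofReal_im]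
    rw [← mul_right_inj' h]
    field_simp
    rw [hD]
    linear_combination (q.re) * h1 - p.re * h2

theorem GG_uniq {p q d : ℂ} {A B : ℝ} (h : (p * conj q).im ≠ 0) (h1 : (p * d).re = A)
    (h2 : (q * d).re = B) : d = GG p q A B := by
  unfold GG
  obtain ⟨D, hD⟩ : ∃ D, D = (p * conj q).im := ⟨_, rfl⟩
  rw [← hD] at h ⊢
  simp only [Complex.mul_re, Complex.mul_im, Complex.conj_re, Complex.conj_im] at hD h1 h2
  rw [← h1, ← h2]
  apply Complex.ext
  · simp only [Complex.sub_re, Complex.sub_im, Complex.mul_re, Complex.mul_im, Complex.I_re, Complex.I_im,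
      Complex.conj_re, Complex.conj_im, Complex.ofReal_re, Complex.ofReal_im]
    rw [← mul_right_inj' h]
    field_simp
    rw [hD]
    ring
  · simp only [Complex.sub_re, Complex.sub_im, Complex.mul_re, Complex.mul_im, Complex.I_re, Complex.I_im,
      Complex.conj_re, Complex.conj_im, Complex.ofReal_re, Complex.ofReal_im]
    rw [← mul_right_inj' h]
    field_simp
    rw [hD]
    ring

/-- Directions of `c_k` and of `c_l`. -/
def ps (e : ℝ) : ℂ := ⟨e * (Real.sqrt 3 / 2), e * (1 / 2)⟩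
def qs (e : ℝ) : ℂ := ⟨-(e * (Real.sqrt 3 / 2)), e * (1 / 2)⟩

/-- `v₀` and `v₂ = v₀ + 1`. -/
def w0 : ℂ := ⟨-1 / 2, -(Real.sqrt 3 / 6)⟩

/-- The limits of `x` and of `d`. -/
def xs : ℂ := ⟨1 / 2, Real.sqrt 3 / 2⟩
def ds : ℂ := ⟨1 / 2, -(Real.sqrt 3 / 2)⟩

theorem s3 : Real.sqrt 3 * Real.sqrt 3 = 3 := Real.mul_self_sqrt (by norm_num)

theorem s3' : Real.sqrt 3 ^ 2 = 3 := by rw [pow_two]; exact s3

theorem s3pos : 0 < Real.sqrt 3 := Real.sqrt_pos.2 (by norm_num)

theorem im_qp {e : ℝ} (he : e * e = 1) : (qs e * conj (ps e)).im = Real.sqrt 3 / 2 := by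
  simp only [qs, ps, Complex.mul_im, Complex.conj_re, Complex.conj_im]
  linear_combination (Real.sqrt 3 / 2) * he

theorem im_pq {e : ℝ} (he : e * e = 1) : (ps e * conj (qs e)).im = -(Real.sqrt 3 / 2) := by
  simp only [qs, ps, Complex.mul_im, Complex.conj_re, Complex.conj_im]
  linear_combination (-(Real.sqrt 3 / 2)) * he

theorem nsq_q {e : ℝ} (he : e * e = 1) : Complex.normSq (qs e) = 1 := by
  simp only [qs, Complex.normSq_apply]
  have := s3
  linear_combination he + (e * e / 4) * this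

theorem FF_lim {e : ℝ} (he : e * e = 1) : FF (ps e) (qs e) = xs := by
  unfold FF
  rw [im_qp he]
  have h0 := s3pos.ne'
  have h1 := s3'
  apply Complex.ext
  · simp only [Complex.neg_re, Complex.mul_re, Complex.mul_im, Complex.I_re, Complex.I_im,
      Complex.conj_re, Complex.conj_im, Complex.ofReal_re, Complex.ofReal_im, ps, qs, xs]
    field_simp
    linear_combination he
  · simp only [Complex.neg_im, Complex.mul_re, Complex.mul_im, Complex.I_re, Complex.I_im,
      Complex.conj_re, Complex.conj_im, Complex.ofReal_re, Complex.ofReal_im, ps, qs, xs]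
    field_simp
    linear_combination (Real.sqrt 3) * he

theorem GG_lim {e : ℝ} (he : e * e = 1) : GG (ps e) (qs e) (e * (Real.sqrt 3 / 2)) 0 = ds := by
  unfold GG
  rw [im_pq he]
  have h0 := s3pos.ne'
  have h1 := s3'
  apply Complex.ext
  · simp only [Complex.sub_re, Complex.sub_im, Complex.mul_re, Complex.mul_im, Complex.I_re, Complex.I_im,
      Complex.conj_re, Complex.conj_im, Complex.ofReal_re, Complex.ofReal_im, ps, qs, ds]
    field_simp
    linear_combination (2 * Real.sqrt 3) * he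
  · simp only [Complex.sub_re, Complex.sub_im, Complex.mul_re, Complex.mul_im, Complex.I_re, Complex.I_im,
      Complex.conj_re, Complex.conj_im, Complex.ofReal_re, Complex.ofReal_im, ps, qs, ds]
    field_simp
    linear_combination (-2 * Real.sqrt 3 ^ 2) * he

theorem WW_lim {e : ℝ} (he : e * e = 1) : WW e (qs e) (xs - 1) (Real.sqrt 3 / 2) = Real.sqrt 3 / 2 := by
  unfold WW
  rw [nsq_q he]
  simp only [qs, xs, Complex.mul_im, Complex.sub_re, Complex.sub_im, Complex.one_re, Complex.one_im]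
  have h1 := s3
  linear_combination (Real.sqrt 3 / 2) * he + (Real.sqrt 3 / 8) * (e * e) * h1

/-- The conditions, as a property of `(p, q, p', q', m)`. -/
def Good (e η : ℝ) (P : ℂ × ℂ × ℂ × ℂ × ℝ) : Prop :=
  (P.2.1 * conj P.1).im ≠ 0 ∧ (P.2.2.2.1 * conj P.2.2.1).im ≠ 0 ∧ (P.2.2.1 * conj P.2.2.2.1).im ≠ 0 ∧
  ‖FF P.1 P.2.1 - xs‖ < η ∧ ‖FF P.2.2.1 P.2.2.2.1 - xs‖ < η ∧
  0 < dt (-w0 - FF P.1 P.2.1 - (w0 + 1)) (GG P.2.2.1 P.2.2.2.1 (e * (FF P.1 P.2.1).im)
    (P.2.2.2.2 * (e * (FF P.1 P.2.1).im))) ∧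
  0 < dt (GG P.2.2.1 P.2.2.2.1 (e * (FF P.1 P.2.1).im) (P.2.2.2.2 * (e * (FF P.1 P.2.1).im)))
    (-w0 - FF P.1 P.2.1 - w0) ∧
  0 < dt (w0 + (w0 + 1)) (GG P.2.2.1 P.2.2.2.1 (e * (FF P.1 P.2.1).im)
    (P.2.2.2.2 * (e * (FF P.1 P.2.1).im))) ∧
  0 < WW e P.2.1 (FF P.1 P.2.1 - 1) (FF P.2.2.1 P.2.2.2.1).im ∧
  2 * (P.2.2.2.2 * WW e P.2.1 (FF P.1 P.2.1 - 1) (FF P.2.2.1 P.2.2.2.1).im) <
    dt (-w0 - FF P.1 P.2.1 - (w0 + 1)) (GG P.2.2.1 P.2.2.2.1 (e * (FF P.1 P.2.1).im)
      (P.2.2.2.2 * (e * (FF P.1 P.2.1).im)))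

theorem dt_cont {X : Type} [TopologicalSpace X] {f g : X → ℂ} {a : X} (hf : ContinuousAt f a)
    (hg : ContinuousAt g a) : ContinuousAt (fun x => dt (f x) (g x)) a := by
  unfold dt
  exact Complex.continuous_im.continuousAt.comp (hg.mul (Complex.continuous_conj.continuousAt.comp hf))

theorem FF_cont {X : Type} [TopologicalSpace X] {f g : X → ℂ} {a : X} (hf : ContinuousAt f a)
    (hg : ContinuousAt g a) (h : (g a * conj (f a)).im ≠ 0) :
    ContinuousAt (fun x => FF (f x) (g x)) a := by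
  unfold FF
  have h1 : ContinuousAt (fun x => conj (f x)) a := Complex.continuous_conj.continuousAt.comp hf
  have h2 : ContinuousAt (fun x => (g x * conj (f x)).im) a :=
    Complex.continuous_im.continuousAt.comp (hg.mul h1)
  have h3 : ContinuousAt (fun x => (g x).re) a := Complex.continuous_re.continuousAt.comp hg
  exact ((continuousAt_const.mul h1).mul
    (Complex.continuous_ofReal.continuousAt.comp (h3.div h2 h))).neg

theorem GG_cont {X : Type} [TopologicalSpace X] {f g : X → ℂ} {A B : X → ℝ} {a : X}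
    (hf : ContinuousAt f a) (hg : ContinuousAt g a) (hA : ContinuousAt A a) (hB : ContinuousAt B a)
    (h : (f a * conj (g a)).im ≠ 0) : ContinuousAt (fun x => GG (f x) (g x) (A x) (B x)) a := by
  unfold GG
  have h1 : ContinuousAt (fun x => conj (f x)) a := Complex.continuous_conj.continuousAt.comp hf
  have h1' : ContinuousAt (fun x => conj (g x)) a := Complex.continuous_conj.continuousAt.comp hg
  have h2 : ContinuousAt (fun x => (f x * conj (g x)).im) a :=
    Complex.continuous_im.continuousAt.comp (hf.mul h1')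
  have hA' : ContinuousAt (fun x => (A x : ℂ)) a := Complex.continuous_ofReal.continuousAt.comp hA
  have hB' : ContinuousAt (fun x => (B x : ℂ)) a := Complex.continuous_ofReal.continuousAt.comp hB
  exact (continuousAt_const.mul ((hB'.mul h1).sub (hA'.mul h1'))).mul
    (Complex.continuous_ofReal.continuousAt.comp (h2.inv₀ h))

theorem WW_cont {X : Type} [TopologicalSpace X] {e : ℝ} {g y : X → ℂ} {B : X → ℝ} {a : X}
    (hg : ContinuousAt g a) (hy : ContinuousAt y a) (hB : ContinuousAt B a)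
    (h : Complex.normSq (g a) ≠ 0) : ContinuousAt (fun x => WW e (g x) (y x) (B x)) a := by
  unfold WW
  have h2 : ContinuousAt (fun x => (g x * y x).im) a :=
    Complex.continuous_im.continuousAt.comp (hg.mul hy)
  have h3 : ContinuousAt (fun x => Complex.normSq (g x)) a :=
    Complex.continuous_normSq.continuousAt.comp hg
  exact ((continuousAt_const.mul h2).mul hB).neg.div h3 h

theorem good_ev {e η : ℝ} (he : e * e = 1) (hη : 0 < η) :
    ∀ᶠ P in 𝓝 ((ps e, qs e, ps e, qs e, 0) : ℂ × ℂ × ℂ × ℂ × ℝ), Good e η P := by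
  have c1 : ContinuousAt (fun P : ℂ × ℂ × ℂ × ℂ × ℝ => P.1) (ps e, qs e, ps e, qs e, 0) := by fun_prop
  have c2 : ContinuousAt (fun P : ℂ × ℂ × ℂ × ℂ × ℝ => P.2.1) (ps e, qs e, ps e, qs e, 0) := by fun_prop
  have c3 : ContinuousAt (fun P : ℂ × ℂ × ℂ × ℂ × ℝ => P.2.2.1) (ps e, qs e, ps e, qs e, 0) := by fun_prop
  have c4 : ContinuousAt (fun P : ℂ × ℂ × ℂ × ℂ × ℝ => P.2.2.2.1) (ps e, qs e, ps e, qs e, 0) := by fun_prop
  have c5 : ContinuousAt (fun P : ℂ × ℂ × ℂ × ℂ × ℝ => P.2.2.2.2) (ps e, qs e, ps e, qs e, 0) := by fun_prop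
  have hs := s3pos
  have n1 : (qs e * conj (ps e)).im ≠ 0 := by rw [im_qp he]; positivity
  have n2 : (ps e * conj (qs e)).im ≠ 0 := by
    rw [im_pq he]
    exact neg_ne_zero.2 (by positivity)
  have n3 : Complex.normSq (qs e) ≠ 0 := by rw [nsq_q he]; exact one_ne_zero
  have f1 := FF_cont c1 c2 n1
  have f2 := FF_cont c3 c4 n1
  have fi1 : ContinuousAt (fun P : ℂ × ℂ × ℂ × ℂ × ℝ => (FF P.1 P.2.1).im)
      (ps e, qs e, ps e, qs e, 0) := Complex.continuous_im.continuousAt.comp f1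
  have fi2 : ContinuousAt (fun P : ℂ × ℂ × ℂ × ℂ × ℝ => (FF P.2.2.1 P.2.2.2.1).im)
      (ps e, qs e, ps e, qs e, 0) := Complex.continuous_im.continuousAt.comp f2
  have gA : ContinuousAt (fun P : ℂ × ℂ × ℂ × ℂ × ℝ => e * (FF P.1 P.2.1).im)
      (ps e, qs e, ps e, qs e, 0) := continuousAt_const.mul fi1
  have gB : ContinuousAt (fun P : ℂ × ℂ × ℂ × ℂ × ℝ => P.2.2.2.2 * (e * (FF P.1 P.2.1).im))
      (ps e, qs e, ps e, qs e, 0) := c5.mul gA
  have g1 := GG_cont c3 c4 gA gB n2
  have f1' : ContinuousAt (fun P : ℂ × ℂ × ℂ × ℂ × ℝ => FF P.1 P.2.1 - 1)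
      (ps e, qs e, ps e, qs e, 0) := f1.sub continuousAt_const
  have w1 := WW_cont (e := e) c2 f1' fi2 n3
  have hx : FF (ps e) (qs e) = xs := FF_lim he
  have hxi : xs.im = Real.sqrt 3 / 2 := rfl
  have hG : GG (ps e) (qs e) (e * xs.im) (0 * (e * xs.im)) = ds := by
    rw [zero_mul, hxi]; exact GG_lim he
  have hW : WW e (qs e) (xs - 1) xs.im = Real.sqrt 3 / 2 := by rw [hxi]; exact WW_lim he
  have hd1 : dt (-w0 - xs - (w0 + 1)) ds = Real.sqrt 3 / 3 := by
    unfold dt
    simp only [w0, xs, ds, Complex.mul_im, Complex.sub_re, Complex.sub_im, Complex.neg_re,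
      Complex.neg_im, Complex.add_re, Complex.add_im, Complex.one_re, Complex.one_im,
      Complex.conj_re, Complex.conj_im]
    ring
  have hd2 : dt ds (-w0 - xs - w0) = Real.sqrt 3 / 6 := by
    unfold dt
    simp only [w0, xs, ds, Complex.mul_im, Complex.sub_re, Complex.sub_im, Complex.neg_re,
      Complex.neg_im, Complex.add_re, Complex.add_im, Complex.one_re, Complex.one_im,
      Complex.conj_re, Complex.conj_im]
    ring
  have hd3 : dt (w0 + (w0 + 1)) ds = Real.sqrt 3 / 6 := by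
    unfold dt
    simp only [w0, xs, ds, Complex.mul_im, Complex.sub_re, Complex.sub_im, Complex.neg_re,
      Complex.neg_im, Complex.add_re, Complex.add_im, Complex.one_re, Complex.one_im,
      Complex.conj_re, Complex.conj_im]
    ring
  have k1 : ContinuousAt (fun P : ℂ × ℂ × ℂ × ℂ × ℝ => (P.2.1 * conj P.1).im)
      (ps e, qs e, ps e, qs e, 0) := Complex.continuous_im.continuousAt.comp
        (c2.mul (Complex.continuous_conj.continuousAt.comp c1))
  have k2 : ContinuousAt (fun P : ℂ × ℂ × ℂ × ℂ × ℝ => (P.2.2.2.1 * conj P.2.2.1).im)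
      (ps e, qs e, ps e, qs e, 0) := Complex.continuous_im.continuousAt.comp
        (c4.mul (Complex.continuous_conj.continuousAt.comp c3))
  have k3 : ContinuousAt (fun P : ℂ × ℂ × ℂ × ℂ × ℝ => (P.2.2.1 * conj P.2.2.2.1).im)
      (ps e, qs e, ps e, qs e, 0) := Complex.continuous_im.continuousAt.comp
        (c3.mul (Complex.continuous_conj.continuousAt.comp c4))
  have a1 : ContinuousAt (fun P : ℂ × ℂ × ℂ × ℂ × ℝ => -w0 - FF P.1 P.2.1 - (w0 + 1))
      (ps e, qs e, ps e, qs e, 0) := (continuousAt_const.sub f1).sub continuousAt_const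
  have a2 : ContinuousAt (fun P : ℂ × ℂ × ℂ × ℂ × ℝ => -w0 - FF P.1 P.2.1 - w0)
      (ps e, qs e, ps e, qs e, 0) := (continuousAt_const.sub f1).sub continuousAt_const
  have d1 := dt_cont a1 g1
  have d2 := dt_cont g1 a2
  have d3 := dt_cont (continuousAt_const (y := w0 + (w0 + 1))) g1
  have w2 : ContinuousAt (fun P : ℂ × ℂ × ℂ × ℂ × ℝ =>
      2 * (P.2.2.2.2 * WW e P.2.1 (FF P.1 P.2.1 - 1) (FF P.2.2.1 P.2.2.2.1).im))
      (ps e, qs e, ps e, qs e, 0) := continuousAt_const.mul (c5.mul w1)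
  unfold Good
  refine (k1.eventually_ne n1).and ((k2.eventually_ne n1).and ((k3.eventually_ne n2).and ?_))
  refine Eventually.and ?_ (Eventually.and ?_ (Eventually.and ?_ (Eventually.and ?_
    (Eventually.and ?_ (Eventually.and ?_ ?_)))))
  · have := (f1.sub (continuousAt_const (y := xs))).norm
    refine this.eventually_lt continuousAt_const ?_
    show ‖FF (ps e) (qs e) - xs‖ < η
    rw [hx, sub_self, norm_zero]
    exact hη
  · have := (f2.sub (continuousAt_const (y := xs))).norm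
    refine this.eventually_lt continuousAt_const ?_
    show ‖FF (ps e) (qs e) - xs‖ < η
    rw [hx, sub_self, norm_zero]
    exact hη
  · refine continuousAt_const.eventually_lt d1 ?_
    show 0 < dt (-w0 - FF (ps e) (qs e) - (w0 + 1)) (GG (ps e) (qs e) (e * (FF (ps e) (qs e)).im)
      (0 * (e * (FF (ps e) (qs e)).im)))
    rw [hx, hG, hd1]
    positivity
  · refine continuousAt_const.eventually_lt d2 ?_
    show 0 < dt (GG (ps e) (qs e) (e * (FF (ps e) (qs e)).im)
      (0 * (e * (FF (ps e) (qs e)).im))) (-w0 - FF (ps e) (qs e) - w0)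
    rw [hx, hG, hd2]
    positivity
  · refine continuousAt_const.eventually_lt d3 ?_
    show 0 < dt (w0 + (w0 + 1)) (GG (ps e) (qs e) (e * (FF (ps e) (qs e)).im)
      (0 * (e * (FF (ps e) (qs e)).im)))
    rw [hx, hG, hd3]
    positivity
  · refine continuousAt_const.eventually_lt w1 ?_
    show 0 < WW e (qs e) (FF (ps e) (qs e) - 1) (FF (ps e) (qs e)).im
    rw [hx, hW]
    positivity
  · refine w2.eventually_lt d1 ?_
    show 2 * (0 * WW e (qs e) (FF (ps e) (qs e) - 1) (FF (ps e) (qs e)).im) <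
      dt (-w0 - FF (ps e) (qs e) - (w0 + 1)) (GG (ps e) (qs e) (e * (FF (ps e) (qs e)).im)
      (0 * (e * (FF (ps e) (qs e)).im)))
    rw [hx, hG, hd1, zero_mul, mul_zero]
    positivity

end Pool.Agent.Helper56.UN
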