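import Pool.Agent.Helper71.DG.Main

/-!
# Project UN: the degree theorem of helper71 with the additional statement `A ∈ ℚ[A ^ b]`
-/

set_option autoImplicit false

open scoped Matrix
open Pool.Agent.Helper71.TA Pool.Agent.Helper56.WV Wav Pool.Agent.Helper71.DG

noncomputable section

namespace Pool.Agent.Helper56.UN

open Polynomial in
/-- A number with `β ^ c = x + y β ^ b` (nontrivially) has an algebraic power `β ^ b`. -/
theorem alg_of_tri {β : ℂ} (hβ0 : β ≠ 0) {b c : ℤ} (hb : b ≠ 0) (hc : c ≠ 0) {x y : ℚ}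
    (hx : x ≠ 0) (hy : y ≠ 0) (h : β ^ c = (x : ℂ) + (y : ℂ) * β ^ b) : IsIntegral ℚ (β ^ b) := by
  obtain ⟨t, ht⟩ : ∃ t, t = β ^ b := ⟨_, rfl⟩
  have ht0 : t ≠ 0 := by rw [ht]; exact zpow_ne_zero _ hβ0
  rw [← ht] at h ⊢
  have hs0 : (x : ℂ) + (y : ℂ) * t ≠ 0 := by rw [← h]; exact zpow_ne_zero _ hβ0
  have key : t ^ c = ((x : ℂ) + (y : ℂ) * t) ^ b := by
    rw [← h, ht, ← zpow_mul, ← zpow_mul, mul_comm]
  have hrel : ∃ m n : ℕ, m ≠ 0 ∧ n ≠ 0 ∧ (t ^ n = ((x : ℂ) + (y : ℂ) * t) ^ m ∨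
      t ^ n * ((x : ℂ) + (y : ℂ) * t) ^ m = 1) := by
    obtain ⟨m, hm | hm⟩ := b.eq_nat_or_neg <;> obtain ⟨n, hn | hn⟩ := c.eq_nat_or_neg
    · refine ⟨m, n, by omega, by omega, Or.inl ?_⟩
      rw [hm, hn, zpow_natCast, zpow_natCast] at key
      exact key
    · refine ⟨m, n, by omega, by omega, Or.inr ?_⟩
      rw [hm, hn, zpow_natCast, zpow_neg, zpow_natCast] at key
      rw [← key, mul_inv_cancel₀ (pow_ne_zero _ ht0)]
    · refine ⟨m, n, by omega, by omega, Or.inr ?_⟩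
      rw [hm, hn, zpow_natCast, zpow_neg, zpow_natCast] at key
      rw [key, inv_mul_cancel₀ (pow_ne_zero _ hs0)]
    · refine ⟨m, n, by omega, by omega, Or.inl ?_⟩
      rw [hm, hn, zpow_neg, zpow_neg, zpow_natCast, zpow_natCast, inv_inj] at key
      exact key
  obtain ⟨m, n, hm, hn, h1 | h1⟩ := hrel
  · rw [← isAlgebraic_iff_isIntegral]
    refine ⟨X ^ n - (C x + C y * X) ^ m, ?_, ?_⟩
    · intro h0
      have h2 := congrArg (Polynomial.eval (-(x / y))) h0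
      simp only [eval_sub, eval_pow, eval_X, eval_add, eval_C, eval_mul, eval_zero] at h2
      have h3 : x + y * -(x / y) = 0 := by field_simp; ring
      rw [h3, zero_pow hm, sub_zero] at h2
      have h4 : -(x / y) ≠ 0 := neg_ne_zero.2 (div_ne_zero hx hy)
      exact pow_ne_zero n h4 h2
    · simp only [map_sub, map_pow, map_add, map_mul, aeval_X, aeval_C, eq_ratCast]
      rw [h1, sub_self]
  · rw [← isAlgebraic_iff_isIntegral]
    refine ⟨X ^ n * (C x + C y * X) ^ m - 1, ?_, ?_⟩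
    · intro h0
      have h2 := congrArg (Polynomial.eval 0) h0
      simp only [eval_sub, eval_pow, eval_X, eval_add, eval_C, eval_mul, eval_zero, eval_one,
        zero_pow hn, zero_mul, zero_sub] at h2
      norm_num at h2
    · simp only [map_sub, map_pow, map_add, map_mul, aeval_X, aeval_C, eq_ratCast, map_one]
      rw [h1, sub_self]

/-- `β` is a rational polynomial in `t` if it lies in the field generated by the algebraic number `t`. -/
theorem poly_of_mem {β t : ℂ} (ht : IsIntegral ℚ t) (h : β ∈ IntermediateField.adjoin ℚ {t}) :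
    ∃ R : Polynomial ℚ, Polynomial.aeval t R = β := by
  have h1 : β ∈ (IntermediateField.adjoin ℚ {t}).toSubalgebra := h
  rw [IntermediateField.adjoin_simple_toSubalgebra_of_isAlgebraic ht.isAlgebraic,
    Algebra.adjoin_singleton_eq_range_aeval] at h1
  exact h1

theorem Ph_aeval {A : Matrix (Fin 2) (Fin 2) ℝ} {β : ℂ} (him : β.im ≠ 0)
    (hT : A.trace = 2 * β.re) (hD : A.det = Complex.normSq β) (z : ℂ) (R : Polynomial ℚ) :
    Ph him hT hD (Polynomial.aeval z R) = Polynomial.aeval (Ph him hT hD z) R := by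
  rw [Polynomial.aeval_eq_sum_range, Polynomial.aeval_eq_sum_range, map_sum]
  refine Finset.sum_congr rfl fun i _ => ?_
  rw [Algebra.smul_def, eq_ratCast, map_mul, map_pow, Ph_rat, Matrix.smul_mul, Matrix.one_mul]
  ext j k
  simp [Matrix.smul_apply, Rat.smul_def]

/-- **The degree theorem.** -/
theorem degree_of_wavelet' {A : Matrix (Fin 2) (Fin 2) ℝ} (hA : Expansive A)
    (hnr : A.trace ^ 2 < 4 * A.det) (hr : ¬ Pool.Agent.Helper54.WavS.HasRationalPower A) {N : ℝ}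
    (hN : (3 : ℝ) < N) (hW : WavN.HasWavelet N A) :
    (∃ v w u : ℚ, A ^ 3 + (v : ℝ) • A ^ 2 + (w : ℝ) • A = (u : ℝ) • (1 : Matrix (Fin 2) (Fin 2) ℝ)) ∨
    ∃ b c d : ℤ, b ≠ 0 ∧ c ≠ 0 ∧ d ≠ 0 ∧ b ≠ c ∧ b ≠ d ∧ c ≠ d ∧ (∃ x y x' y' : ℚ,
      A ^ c = (x : ℝ) • (1 : Matrix (Fin 2) (Fin 2) ℝ) + (y : ℝ) • A ^ b ∧
      A ^ d = (x' : ℝ) • (1 : Matrix (Fin 2) (Fin 2) ℝ) + (y' : ℝ) • A ^ b) ∧
      ∃ R : Polynomial ℚ, A = Polynomial.aeval (A ^ b) R := by
  have hdet := expansive_det hA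
  obtain ⟨β, him0, hT, hD⟩ := Pool.Agent.Helper56.FU.exists_eig A hnr
  have him := him0.ne'
  have hβ0 : β ≠ 0 := by
    rintro rfl
    exact him Complex.zero_im
  have hB : (Aᵀ).det ≠ 0 := by rw [Matrix.det_transpose]; exact hdet
  have hq : β ^ 2 = ((Aᵀ).trace : ℂ) * β - ((Aᵀ).det : ℂ) := by
    rw [Matrix.det_transpose, Matrix.trace_transpose]
    exact Pool.Agent.Helper56.FU.quad hT hD
  -- no power of `β` is rational
  have hβ : ∀ j : ℤ, j ≠ 0 → ∀ ρ : ℚ, β ^ j ≠ (ρ : ℂ) := by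
    intro j hj ρ h
    have h1 : A ^ j = (ρ : ℝ) • (1 : Matrix (Fin 2) (Fin 2) ℝ) := by
      rw [← Ph_zpow him hT hD, h, Ph_rat]
    refine ratM_pow hdet hr j hj (ratM_of fun i k => ?_)
    have h2 : Aᵀ ^ j = (ρ : ℝ) • (1 : Matrix (Fin 2) (Fin 2) ℝ) := by
      have h3 : Aᵀ ^ j = (A ^ j)ᵀ := by
        obtain ⟨n, rfl | rfl⟩ := j.eq_nat_or_neg
        · rw [zpow_natCast, zpow_natCast, Matrix.transpose_pow]
        · rw [Matrix.zpow_neg_natCast, Matrix.zpow_neg_natCast, Matrix.transpose_nonsing_inv,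
            Matrix.transpose_pow]
      rw [h3, h1, Matrix.transpose_smul, Matrix.transpose_one]
    rw [h2]
    by_cases hik : i = k
    · subst hik
      exact ⟨ρ, by simp⟩
    · exact ⟨0, by simp [hik]⟩
  obtain ⟨a, b, c, d, hab, hac, had, hbc, hbd, hcd, mab, mac, mad, mbc, mbd, -, m1, m2, -⟩ :=
    tetra_of_two hA hr hN hW
  obtain ⟨x₁, y₁, x₂, y₂, p, q, e₁, e₂, e₃, hy₁, hyq⟩ := extract hdet mab mac mbc m1
  obtain ⟨x₁', y₁', x₂', y₂', p', q', e₁', e₂', e₃', hy₁', hyq'⟩ := extract hdet mab mad mbd m2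
  have hba : b - a ≠ 0 := sub_ne_zero.2 hab.symm
  have k1 := core hq him hB hβ hba e₁ e₂ e₃ hy₁ hyq
  have k2 := core hq him hB hβ hba e₁' e₂' e₃' hy₁' hyq'
  have htF : β ^ (b - a) ∈ IntermediateField.adjoin ℚ {β ^ (b - a)} :=
    IntermediateField.mem_adjoin_simple_self ℚ _
  have hrat : ∀ x : ℚ, (x : ℂ) ∈ IntermediateField.adjoin ℚ {β ^ (b - a)} := by
    intro x
    have := (IntermediateField.adjoin ℚ {β ^ (b - a)}).algebraMap_mem x
    rwa [eq_ratCast] at this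
  obtain ⟨-, hco⟩ := coord hq him hB hβ hba e₁ hy₁
  have hv : ph Aᵀ β (zc y₁) ≠ 0 := ph_ne hq him (zc_ne hy₁)
  have hmem : β ∈ IntermediateField.adjoin ℚ {β ^ (b - a)} := by
    refine mem_of_closure hβ0 (J := WavN.Exps A)
      (WavN.exps_closure (le_refl 2) hA (by norm_num; linarith) hW) ?_
    intro j hj
    obtain ⟨x, y, hx, hxy⟩ := exps_vec hj
    obtain ⟨α, α', -, ka⟩ := hco x
    obtain ⟨κ, κ', -, kk⟩ := hco y
    have h4 : ph Aᵀ β (zc x) = β ^ j * ph Aᵀ β (zc y) := by rw [hxy, ph_zpow hq him hB]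
    have hxn : ph Aᵀ β (zc x) ≠ 0 := ph_ne hq him (zc_ne hx)
    rw [ka, kk] at h4
    rw [ka] at hxn
    have h5 : (α : ℂ) + α' * β ^ (b - a) = β ^ j * ((κ : ℂ) + κ' * β ^ (b - a)) := by
      apply mul_left_cancel₀ hv
      linear_combination h4
    have h6 : ((κ : ℂ) + κ' * β ^ (b - a)) ≠ 0 := by
      intro h0
      rw [h0, mul_zero] at h5
      rw [h5, mul_zero] at hxn
      exact hxn rfl
    have h7 : β ^ j = ((α : ℂ) + α' * β ^ (b - a)) / ((κ : ℂ) + κ' * β ^ (b - a)) := by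
      rw [eq_div_iff h6]
      exact h5.symm
    rw [h7]
    exact div_mem (add_mem (hrat α) (mul_mem (hrat α') htF))
      (add_mem (hrat κ) (mul_mem (hrat κ') htF))
  have hcub : (∃ r₀ r₁ r₂ : ℚ, (β ^ (b - a)) ^ 3 =
      (r₀ : ℂ) + (r₁ : ℂ) * β ^ (b - a) + (r₂ : ℂ) * (β ^ (b - a)) ^ 2) →
      ∃ v w u : ℚ, A ^ 3 + (v : ℝ) • A ^ 2 + (w : ℝ) • A =
        (u : ℝ) • (1 : Matrix (Fin 2) (Fin 2) ℝ) := by
    rintro ⟨r₀, r₁, r₂, h3⟩
    obtain ⟨hfd, hfr⟩ := adjoin_le h3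
    obtain ⟨v, w, u, h⟩ := cubic_of_mem hfr hmem
    refine ⟨v, w, u, ?_⟩
    have h8 := congrArg (Ph him hT hD) h
    rw [map_add, map_add, map_mul, map_mul, map_pow, map_pow, Ph_self, Ph_rat, Ph_rat, Ph_rat,
      Matrix.smul_mul, Matrix.smul_mul, Matrix.one_mul, Matrix.one_mul] at h8
    exact h8
  rcases k1 with k1 | ⟨s₀, s₁, k1⟩
  · exact Or.inl (hcub k1)
  rcases k2 with k2 | ⟨s₀', s₁', k2⟩
  · exact Or.inl (hcub k2)
  right
  have tr : ∀ (j : ℤ) (x y : ℚ), β ^ j = (x : ℂ) + (y : ℂ) * β ^ (b - a) →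
      A ^ j = (x : ℝ) • (1 : Matrix (Fin 2) (Fin 2) ℝ) + (y : ℝ) • A ^ (b - a) := by
    intro j x y h
    have h8 := congrArg (Ph him hT hD) h
    rw [map_add, map_mul, Ph_zpow, Ph_zpow, Ph_rat, Ph_rat, Matrix.smul_mul, Matrix.one_mul] at h8
    exact h8
  have hca : c - a ≠ 0 := sub_ne_zero.2 hac.symm
  have hs₁ : s₁ ≠ 0 := by
    rintro rfl
    refine hβ (c - a) hca s₀ ?_
    rw [k1]
    simp
  have hs₀ : s₀ ≠ 0 := by
    rintro rfl
    refine hβ (c - b) (sub_ne_zero.2 hbc.symm) s₁ ?_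
    have h1 : β ^ (c - b) = β ^ (c - a) / β ^ (b - a) := by
      rw [← zpow_sub₀ hβ0]
      congr 1
      ring
    rw [h1, k1, Rat.cast_zero, zero_add, mul_div_assoc, div_self (zpow_ne_zero _ hβ0), mul_one]
  have hint := alg_of_tri hβ0 hba hca hs₀ hs₁ k1
  obtain ⟨R, hR⟩ := poly_of_mem hint hmem
  refine ⟨b - a, c - a, d - a, hba, hca, sub_ne_zero.2 had.symm,
    fun h => hbc (by linarith), fun h => hbd (by linarith), fun h => hcd (by linarith),
    ⟨s₀, s₁, s₀', s₁', tr _ _ _ k1, tr _ _ _ k2⟩, R, ?_⟩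
  have h9 := congrArg (Ph him hT hD) hR
  rw [Ph_aeval, Ph_zpow, Ph_self] at h9
  exact h9.symm

end Pool.Agent.Helper56.UN
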