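import Pool.Agent.Helper56.UN.Fin1
import Pool.Agent.Helper56.UN.Deg

/-! # Project UN: the classification for non-real eigenvalues, `n = 2` -/

set_option autoImplicit false

open Set Filter Topology Matrix

noncomputable section

namespace Pool.Agent.Helper56.UN

/-- `A` is a root of a nonzero rational polynomial of degree at most three. -/
def Cubic (A : Matrix (Fin 2) (Fin 2) ℝ) : Prop :=
  ∃ P : Polynomial ℚ, P ≠ 0 ∧ P.natDegree ≤ 3 ∧ Polynomial.aeval A P = 0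

/-- `A ^ c` and `A ^ d` are rational combinations of `1` and `A ^ b`, for distinct nonzero integers `b`, `c`, `d`, and
`A` is a rational polynomial in `A ^ b`. -/
def TwoTrinomials (A : Matrix (Fin 2) (Fin 2) ℝ) : Prop :=
  ∃ b c d : ℤ, b ≠ 0 ∧ c ≠ 0 ∧ d ≠ 0 ∧ b ≠ c ∧ b ≠ d ∧ c ≠ d ∧ (∃ x y x' y' : ℚ,
    A ^ c = (x : ℝ) • (1 : Matrix (Fin 2) (Fin 2) ℝ) + (y : ℝ) • A ^ b ∧
    A ^ d = (x' : ℝ) • (1 : Matrix (Fin 2) (Fin 2) ℝ) + (y' : ℝ) • A ^ b) ∧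
    ∃ R : Polynomial ℚ, A = Polynomial.aeval (A ^ b) R

theorem cubic_of_eq {A : Matrix (Fin 2) (Fin 2) ℝ} {v w u : ℚ}
    (h : A ^ 3 + (v : ℝ) • A ^ 2 + (w : ℝ) • A = (u : ℝ) • (1 : Matrix (Fin 2) (Fin 2) ℝ)) :
    Cubic A := by
  refine ⟨Polynomial.X ^ 3 + (Polynomial.C v * Polynomial.X ^ 2 + Polynomial.C w * Polynomial.X +
    Polynomial.C (-u)), ?_, ?_, ?_⟩
  · intro h0
    have h1 := congrArg (fun p => Polynomial.coeff p 3) h0
    simp [Polynomial.coeff_X, Polynomial.coeff_C] at h1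
  · compute_degree
  · have e : ∀ x : ℚ, algebraMap ℚ (Matrix (Fin 2) (Fin 2) ℝ) x = (x : ℝ) • 1 := by
      intro x
      rw [Algebra.algebraMap_eq_smul_one]
      ext i j
      simp [Matrix.smul_apply, Rat.smul_def]
    simp only [map_add, map_mul, map_pow, Polynomial.aeval_X, Polynomial.aeval_C, e,
      Matrix.smul_mul, Matrix.one_mul]
    push_cast
    rw [neg_smul, ← h]
    abel

/-- **The classification** for non-real eigenvalues, without rational powers. -/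
theorem cls (A : Matrix (Fin 2) (Fin 2) ℝ) (hE : _root_.Wav.Expansive A)
    (hnr : A.trace ^ 2 < 4 * A.det) (hr : ¬ Pool.Agent.Helper54.WavS.HasRationalPower A) :
    (Cubic A →
      ((∃ N : ℝ, 2 < N ∧ WavN.HasWavelet N A) ↔ ∃ j : ℤ, j ≠ 0 ∧ j ∈ WavN.Exps A) ∧
      ((∃ j : ℤ, j ≠ 0 ∧ j ∈ WavN.Exps A) →
        (1 : ℤ) ∈ WavN.Exps A ∧ Pool.Agent.Helper54.WavS.HasSchwartzWavelet A)) ∧
    (¬ Cubic A → ¬ TwoTrinomials A → ¬ ∃ N : ℝ, 3 < N ∧ WavN.HasWavelet N A) := by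
  refine ⟨fun hP => main1.1 A hE hnr hP hr, ?_⟩
  rintro hC hT ⟨N, hN, hW⟩
  rcases degree_of_wavelet' hE hnr hr hN hW with ⟨v, w, u, h⟩ | h
  · exact hC (cubic_of_eq h)
  · exact hT h

/-- The existence part, with the cubic equation of the matrix. -/
theorem ex1 (v w u : ℚ) (β : ℂ) (hirr : ∀ x : ℚ, x ^ 3 + v * x ^ 2 + w * x ≠ u)
    (hvw : v ≠ 0 ∨ w ≠ 0) (hβ : β ^ 3 + (v : ℂ) * β ^ 2 + (w : ℂ) * β = (u : ℂ)) (him : β.im ≠ 0)
    (h1 : 1 < ‖β‖) :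
    ∃ A : Matrix (Fin 2) (Fin 2) ℝ, _root_.Wav.Expansive A ∧ A.trace = 2 * β.re ∧
      A.det = Complex.normSq β ∧ Cubic A ∧ ¬ Pool.Agent.Helper54.WavS.HasRationalPower A ∧
      (1 : ℤ) ∈ WavN.Exps A ∧ Pool.Agent.Helper54.WavS.HasSchwartzWavelet A := by
  obtain ⟨A, hE, hT, hD, hr, he, hs⟩ := main1.2 v w u β hirr hvw hβ him h1
  refine ⟨A, hE, hT, hD, ?_, hr, he, hs⟩
  have h8 := congrArg (Pool.Agent.Helper71.DG.Ph him hT hD) hβ
  rw [map_add, map_add, map_mul, map_mul, map_pow, map_pow, Pool.Agent.Helper71.DG.Ph_self,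
    Pool.Agent.Helper71.DG.Ph_rat, Pool.Agent.Helper71.DG.Ph_rat, Pool.Agent.Helper71.DG.Ph_rat,
    Matrix.smul_mul, Matrix.smul_mul, Matrix.one_mul, Matrix.one_mul] at h8
  exact cubic_of_eq h8

end Pool.Agent.Helper56.UN
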