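import Pool.Agent.Helper56.UN.PNT
import Pool.Agent.Helper38.UN.Main
import Pool.Agent.Helper71.UN.All
import Pool.Agent.Helper54.UN.Fin

/-! # Project UN: the final theorem -/

set_option autoImplicit false

open Set Filter Topology Matrix

namespace Pool.Agent.Helper56.UN

theorem pUK : Pool.Agent.Helper56.FU.StUK (4 / 3) :=
  uk_of Pool.Agent.Helper38.UN.hASM Pool.Agent.Helper38.UN.hNET Pool.Agent.Helper54.UN.pHEX
    Pool.Agent.Helper71.UN.hVXH pNT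

/-- The final theorem of project UN. -/
theorem main :
    (∀ A : Matrix (Fin 2) (Fin 2) ℝ, _root_.Wav.Expansive A → A.trace ^ 2 < 4 * A.det →
      4 / 3 < A.det → (∃ P : Polynomial ℚ, P ≠ 0 ∧ P.natDegree ≤ 3 ∧ Polynomial.aeval A P = 0) →
      ¬ Pool.Agent.Helper54.WavS.HasRationalPower A →
      ((∃ N : ℝ, 2 < N ∧ WavN.HasWavelet N A) ↔ ∃ j : ℤ, j ≠ 0 ∧ j ∈ WavN.Exps A) ∧
      ((∃ j : ℤ, j ≠ 0 ∧ j ∈ WavN.Exps A) →
        (1 : ℤ) ∈ WavN.Exps A ∧ Pool.Agent.Helper54.WavS.HasSchwartzWavelet A)) ∧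
    ∀ (v w u : ℚ) (β : ℂ), (∀ x : ℚ, x ^ 3 + v * x ^ 2 + w * x ≠ u) → (v ≠ 0 ∨ w ≠ 0) →
      β ^ 3 + (v : ℂ) * β ^ 2 + (w : ℂ) * β = (u : ℂ) → β.im ≠ 0 → 4 / 3 < Complex.normSq β →
      ∃ A : Matrix (Fin 2) (Fin 2) ℝ, _root_.Wav.Expansive A ∧ A.trace = 2 * β.re ∧
        A.det = Complex.normSq β ∧ ¬ Pool.Agent.Helper54.WavS.HasRationalPower A ∧
        (1 : ℤ) ∈ WavN.Exps A ∧ Pool.Agent.Helper54.WavS.HasSchwartzWavelet A :=
  main_of (by norm_num) pUK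

end Pool.Agent.Helper56.UN
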