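import Pool.Agent.Helper56.UN.MainOf

/-!
# Project UN: the final statement from the universal kernel for all `|β| > 1`
-/

set_option autoImplicit false

open Set Filter Topology Matrix

noncomputable section

namespace Pool.Agent.Helper56.UN

open Pool.Agent.Helper56.FU

/-- The final statement, from the universal kernel for `|β| > 1`. -/
theorem main_one (hUK : StUK 1) :
    (∀ A : Matrix (Fin 2) (Fin 2) ℝ, _root_.Wav.Expansive A → A.trace ^ 2 < 4 * A.det →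
      (∃ P : Polynomial ℚ, P ≠ 0 ∧ P.natDegree ≤ 3 ∧ Polynomial.aeval A P = 0) →
      ¬ Pool.Agent.Helper54.WavS.HasRationalPower A →
      ((∃ N : ℝ, 2 < N ∧ WavN.HasWavelet N A) ↔ ∃ j : ℤ, j ≠ 0 ∧ j ∈ WavN.Exps A) ∧
      ((∃ j : ℤ, j ≠ 0 ∧ j ∈ WavN.Exps A) →
        (1 : ℤ) ∈ WavN.Exps A ∧ Pool.Agent.Helper54.WavS.HasSchwartzWavelet A)) ∧
    ∀ (v w u : ℚ) (β : ℂ), (∀ x : ℚ, x ^ 3 + v * x ^ 2 + w * x ≠ u) → (v ≠ 0 ∨ w ≠ 0) →
      β ^ 3 + (v : ℂ) * β ^ 2 + (w : ℂ) * β = (u : ℂ) → β.im ≠ 0 → 1 < ‖β‖ →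
      ∃ A : Matrix (Fin 2) (Fin 2) ℝ, _root_.Wav.Expansive A ∧ A.trace = 2 * β.re ∧
        A.det = Complex.normSq β ∧ ¬ Pool.Agent.Helper54.WavS.HasRationalPower A ∧
        (1 : ℤ) ∈ WavN.Exps A ∧ Pool.Agent.Helper54.WavS.HasSchwartzWavelet A := by
  obtain ⟨h1, h2⟩ := main_of (le_refl 1) hUK
  refine ⟨?_, ?_⟩
  · intro A hE hnr hP hnp
    refine h1 A hE hnr ?_ hP hnp
    obtain ⟨β, him, hT, hD⟩ := exists_eig A hnr
    have h3 := one_lt_det hE hT hD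
    rw [hD, Complex.normSq_eq_norm_sq]
    nlinarith [norm_nonneg β]
  · intro v w u β hirr hvw hβ him hβ1
    refine h2 v w u β hirr hvw hβ him ?_
    rw [Complex.normSq_eq_norm_sq]
    nlinarith [norm_nonneg β]

end Pool.Agent.Helper56.UN
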