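import Pool.Agent.Helper56.UN.NT3
import Pool.Agent.Helper56.FU.Ex

/-!
# Project UN: the universal kernel from the parts (A), (B), (C), (D), (E)
-/

set_option autoImplicit false

open Set Filter Topology
open scoped ComplexConjugate

noncomputable section

namespace Pool.Agent.Helper56.UN

open Pool.Agent.Helper54.TRI (PatC)
open Pool.Agent.Helper56.FM (Gq)
open Pool.Agent.Helper56.FU (CubN StUK)
open Pool.Agent.Helper71.UN

theorem gq_pow {β : ℂ} (hβ : β ≠ 0) (l k : ℤ) (u : ℂ) (h : Gq β l u) : Gq β (l + k) (β ^ k * u) := by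
  obtain ⟨a, b, rfl⟩ := h
  refine ⟨a, b, ?_⟩
  rw [zpow_add₀ hβ]
  ring

theorem gq_zero (β : ℂ) (l : ℤ) : Gq β l 0 := ⟨0, 0, by simp⟩

/-- The label near a vertex does not change under dilations. -/
def StNU : Prop := ∀ (k l : ℤ) (v₀ a a' τ h : ℂ) (lam : ℂ → ℤ) (c : Bool) (i : Fin 6) (z : ℂ) (r : ℝ),
  0 < r → (hexN k l v₀ a a' τ h lam).nu c i ((r : ℂ) * z) = (hexN k l v₀ a a' τ h lam).nu c i z

theorem hh_smul (d z : ℂ) (r : ℝ) : hh d ((r : ℂ) * z) = r * hh d z := by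
  unfold hh
  rw [mul_assoc, Complex.im_ofReal_mul, mul_div_assoc]

theorem hh_le_iff {d z : ℂ} {r : ℝ} (hr : 0 < r) : hh d ((r : ℂ) * z) ≤ 0 ↔ hh d z ≤ 0 := by
  rw [hh_smul]
  constructor
  · intro h
    by_contra h'
    push Not at h'
    have := mul_pos hr h'
    linarith
  · intro h
    exact mul_nonpos_of_nonneg_of_nonpos hr.le h

theorem hh_ge_iff {d z : ℂ} {r : ℝ} (hr : 0 < r) : 0 ≤ hh d ((r : ℂ) * z) ↔ 0 ≤ hh d z := by
  rw [hh_smul]
  constructor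
  · intro h
    by_contra h'
    push Not at h'
    have := mul_neg_of_pos_of_neg hr h'
    linarith
  · intro h
    exact mul_nonneg hr.le h

theorem fstA_smul (d : ℕ → ℂ) {r : ℝ} (hr : 0 < r) (z : ℂ) (m : ℕ) : ∀ i : ℕ,
    fstA d i m ((r : ℂ) * z) = fstA d i m z := by
  induction m with
  | zero => intro i; rfl
  | succ m ih =>
    intro i
    rw [fstA, fstA, ih]
    by_cases h : hh (d i) z ≤ 0
    · rw [if_pos h, if_pos ((hh_le_iff hr).2 h)]
    · rw [if_neg h, if_neg (fun h' => h ((hh_le_iff hr).1 h'))]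

theorem fstB_smul (d : ℕ → ℂ) {r : ℝ} (hr : 0 < r) (z : ℂ) (m : ℕ) : ∀ i : ℕ,
    fstB d i m ((r : ℂ) * z) = fstB d i m z := by
  induction m with
  | zero => intro i; rfl
  | succ m ih =>
    intro i
    rw [fstB, fstB, ih]
    by_cases h : 0 ≤ hh (d i) z
    · rw [if_pos h, if_pos ((hh_ge_iff hr).2 h)]
    · rw [if_neg h, if_neg (fun h' => h ((hh_ge_iff hr).1 h'))]

theorem stz6_smul (v₀ a a' τ h : ℂ) {r : ℝ} (hr : 0 < r) (z : ℂ) :
    stz6 v₀ a a' τ h ((r : ℂ) * z) = stz6 v₀ a a' τ h z := by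
  unfold stz6
  rw [fstA_smul _ hr, fstB_smul _ hr]
  have e : ((r : ℂ) * z * conj v₀).re = r * (z * conj v₀).re := by
    rw [mul_assoc, Complex.re_ofReal_mul]
  by_cases h1 : 0 < (z * conj v₀).re
  · rw [if_pos h1, if_pos]
    rw [e]
    exact mul_pos hr h1
  · rw [if_neg h1, if_neg]
    rw [e]
    intro h2
    exact h1 (pos_of_mul_pos_right h2 hr.le)

theorem nu_smul : StNU := by
  intro k l v₀ a a' τ h lam c i z r hr
  show (if c then lb k l (stz6 v₀ a a' τ h ((r : ℂ) * z) i) else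
      lb k l (stz6 v₀ a a' τ h (-((r : ℂ) * z)) i)) =
    (if c then lb k l (stz6 v₀ a a' τ h z i) else lb k l (stz6 v₀ a a' τ h (-z) i))
  have e : -((r : ℂ) * z) = (r : ℂ) * (-z) := by ring
  rw [e, stz6_smul v₀ a a' τ h hr, stz6_smul v₀ a a' τ h hr]

/-- **The universal kernel**, from the parts. -/
theorem uk_of (hASM : StASM) (hNET : StNET) (hHEX : StHEX) (hVXH : StVXH) (hNT : StNT) :
    StUK (4 / 3) := by
  intro β p q r hβ hcub hirr hc
  have hβ0 : β ≠ 0 := by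
    rintro rfl
    exact hβ.im Complex.zero_im
  have hκ : 4 / 3 < ‖β‖ ^ 2 := by
    rwa [← Complex.normSq_eq_norm_sq]
  obtain ⟨η, hη, hhex⟩ := hHEX ‖β‖ hβ.one_lt hκ
  obtain ⟨k, l, v₀, a, a', τ, s, θ, hcfg⟩ := hNT β p q r hβ.im hcub hirr hβ.nrat
    (min η (1 / 100)) (lt_min hη (by norm_num))
  have hmono : ∀ η' : ℝ, min η (1 / 100) ≤ η' → Cfg (Gq β) η' k l v₀ a a' τ s θ := by
    intro η' h
    have hn : 0 ≤ ‖v₀‖ := norm_nonneg _
    exact { hcfg with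
      ha := hcfg.ha.trans (mul_le_mul_of_nonneg_right h hn)
      ha' := hcfg.ha'.trans (mul_le_mul_of_nonneg_right h hn) }
  obtain ⟨σ, lam, r₁, r₂, hσ0, hσ1, hr1, hr2, hN⟩ := hhex (Gq β) k l v₀ a a' τ s θ
    (hmono η (min_le_left _ _))
  have hV := hVXH (Gq β) (1 / 100) k l v₀ a a' τ s θ σ lam le_rfl (hmono _ (min_le_right _ _))
    (fun l u u' h h' => gq_add h h') (fun l u x h => gq_smul x h)
  choose M R₀ hM using hV
  obtain ⟨R, Λ, hR⟩ := hNET Bool (Bool × Fin 7) 6 _ (Gq β) {0, 1, k, l} r₁ r₂ M R₀ hN hM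
    (gq_zero β) (fun c i z r hr => nu_smul k l v₀ a a' τ _ lam c i z r hr)
  exact hASM β (Gq β) {0, 1, k, l} r₁ r₂ R Λ hβ.one_lt hr1 hr2 (fun l k u h => gq_pow hβ0 l k u h)
    (gq_zero β 0) (by simp) (by simp) hR

end Pool.Agent.Helper56.UN
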