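import Pool.Agent.Helper56.UN.Fin
import Pool.Agent.Helper56.UN.MainOne
import Pool.Agent.Helper71.ISL.Isl
import Pool.Agent.Helper31.ISL.M_CUT
import Pool.Agent.Helper31.ISL.M_GAS
import Pool.Agent.Helper31.ISL.M_PW
import Pool.Agent.Helper33.ISL.M_TRK
import Pool.Agent.Helper51.ISL.M_KZ
import Pool.Agent.Helper8.ISL.M_TZ

/-! # Project UN, stage 2: the final theorem for all complex cubic dilations -/

set_option autoImplicit false

open Set Filter Topology Matrix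

namespace Pool.Agent.Helper56.UN

/-- The island kernels. -/
theorem pISL : Pool.Agent.Helper71.ISL.StISL :=
  Pool.Agent.Helper71.ISL.isl_of Pool.Agent.Helper38.UN.hNET Pool.Agent.Helper54.UN.pHEX
    Pool.Agent.Helper71.UN.hVXH pNT Pool.Agent.Helper31.ISL.hPW Pool.Agent.Helper33.ISL.hTRK

/-- The universal kernel for all complex cubic numbers of modulus greater than one. -/
theorem pUK1 : Pool.Agent.Helper56.FU.StUK 1 :=
  Pool.Agent.Helper71.ISL.uk1_of Pool.Agent.Helper31.ISL.hCUT Pool.Agent.Helper31.ISL.hGAS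
    Pool.Agent.Helper8.ISL.hTZ Pool.Agent.Helper51.ISL.hKZ pISL

/-- The final theorem of project UN. -/
theorem main1 :
    (∀ A : Matrix (Fin 2) (Fin 2) ℝ, _root_.Wav.Expansive A → A.trace ^ 2 < 4 * A.det →
      (∃ P : Polynomial ℚ, P ≠ 0 ∧ P.natDegree ≤ 3 ∧ Polynomial.aeval A P = 0) →
      ¬ Pool.Agent.Helper54.WavS.HasRationalPower A →
      ((∃ N : ℝ, 2 < N ∧ WavN.HasWavelet N A) ↔ ∃ j : ℤ, j ≠ 0 ∧ j ∈ WavN.Exps A) ∧
      ((∃ j : ℤ, j ≠ 0 ∧ j ∈ WavN.Exps A) →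
        (1 : ℤ) ∈ WavN.Exps A ∧ Pool.Agent.Helper54.WavS.HasSchwartzWavelet A)) ∧
    ∀ (v w u : ℚ) (β : ℂ), (∀ x : ℚ, x ^ 3 + v * x ^ 2 + w * x ≠ u) → (v ≠ 0 ∨ w ≠ 0) →
      β ^ 3 + (v : ℂ) * β ^ 2 + (w : ℂ) * β = (u : ℂ) → β.im ≠ 0 → 1 < ‖β‖ →
      ∃ A : Matrix (Fin 2) (Fin 2) ℝ, _root_.Wav.Expansive A ∧ A.trace = 2 * β.re ∧
        A.det = Complex.normSq β ∧ ¬ Pool.Agent.Helper54.WavS.HasRationalPower A ∧
        (1 : ℤ) ∈ WavN.Exps A ∧ Pool.Agent.Helper54.WavS.HasSchwartzWavelet A :=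
  main_one pUK1

end Pool.Agent.Helper56.UN
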