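import Pool.Agent.Helper56.UN.AN

/-!
# Project UN, part (E): configurations
-/

set_option autoImplicit false
set_option linter.unusedSimpArgs false

open Set Filter Topology
open scoped ComplexConjugate

noncomputable section

namespace Pool.Agent.Helper56.UN

open Pool.Agent.Helper56.FM (Gq)
open Pool.Agent.Helper71.UN

/-- The real root. -/
theorem exists_real {β : ℂ} {p q r : ℚ} (him : β.im ≠ 0)
    (hc : β ^ 3 + (p : ℂ) * β ^ 2 + (q : ℂ) * β + (r : ℂ) = 0)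
    (hirr : ∀ x : ℚ, x ^ 3 + p * x ^ 2 + q * x + r ≠ 0)
    (hn : ∀ n : ℕ, n ≠ 0 → ∀ x : ℚ, β ^ n ≠ (x : ℂ)) : ∃ t : ℝ, CubI β p q r t := by
  obtain ⟨x, hx⟩ : ∃ x, x = β.re := ⟨_, rfl⟩
  obtain ⟨y, hy⟩ : ∃ y, y = β.im := ⟨_, rfl⟩
  have e : β = ⟨x, y⟩ := by rw [hx, hy]
  have hy0 : y ≠ 0 := by rw [hy]; exact him
  have hc' := hc
  rw [e] at hc'
  have h1 := congrArg Complex.re hc'
  have h2 := congrArg Complex.im hc'
  simp [pow_succ] at h1 h2
  have h3 : 3 * x ^ 2 - y ^ 2 + 2 * p * x + q = 0 := by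
    apply mul_left_cancel₀ hy0
    linear_combination h2
  have hns : Complex.normSq β = x ^ 2 + y ^ 2 := by
    rw [Complex.normSq_apply, ← hx, ← hy]; ring
  refine ⟨-(p : ℝ) - 2 * x, ⟨him, hc, hirr, hn, ?_, ?_, ?_⟩⟩
  · linear_combination h1 - (p + 2 * x + x) * h3
  · rw [← hx]; ring
  · rw [hns]
    linear_combination -h3

theorem gq_zero_one (β : ℂ) : Gq β 0 1 := ⟨1, 0, by simp⟩

theorem gq_one_one {β : ℂ} (h : β ≠ 0) : Gq β 1 1 := ⟨0, 1, by simp [h]⟩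

theorem gq_smul {β : ℂ} {l : ℤ} {u : ℂ} (x : ℚ) (h : Gq β l u) : Gq β l ((x : ℂ) * u) := by
  obtain ⟨a, b, rfl⟩ := h
  exact ⟨x * a, x * b, by push_cast; ring⟩

theorem gq_neg {β : ℂ} {l : ℤ} {u : ℂ} (h : Gq β l u) : Gq β l (-u) := by
  obtain ⟨a, b, rfl⟩ := h
  exact ⟨-a, -b, by push_cast; ring⟩

theorem gq_add {β : ℂ} {l : ℤ} {u v : ℂ} (h : Gq β l u) (h' : Gq β l v) : Gq β l (u + v) := by
  obtain ⟨a, b, rfl⟩ := h
  obtain ⟨a', b', rfl⟩ := h'
  exact ⟨a + a', b + b', by push_cast; ring⟩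

theorem gq_sub {β : ℂ} {l : ℤ} {u v : ℂ} (h : Gq β l u) (h' : Gq β l v) : Gq β l (u - v) := by
  rw [sub_eq_add_neg]
  exact gq_add h (gq_neg h')

/-- The point `x` with `x ∈ V_j ∩ V_k`, `x - 1 ∈ V_j ∩ V_l`. -/
theorem solve (hIN : StIN) (hRT : StRT) {β : ℂ} {p q r : ℚ} {t : ℝ} (hC : CubI β p q r t) (hβ : β ≠ 0)
    {c : ℂ} (hc : ∀ (j k : ℤ) (u : ℂ), Gq β j u → Gq β k u → ((cj c t β j - cj c t β k) * u).re = 0)
    {j k l : ℤ} (hj : Gq β j 1)
    (h : ((cj c t β l - cj c t β j) * conj (cj c t β k - cj c t β j)).im ≠ 0) :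
    ∃ x : ℂ, Gq β j x ∧ Gq β k x ∧ Gq β j (x - 1) ∧ Gq β l (x - 1) ∧
      ((cj c t β k - cj c t β j) * x).re = 0 ∧ ((cj c t β l - cj c t β j) * (x - 1)).re = 0 := by
  obtain ⟨u₁, hu1, a1, b1⟩ := hIN β p q r t hC j k
  obtain ⟨u₂, hu2, a2, b2⟩ := hIN β p q r t hC j l
  obtain ⟨P, hP⟩ : ∃ P, P = cj c t β k - cj c t β j := ⟨_, rfl⟩
  obtain ⟨Q, hQ⟩ : ∃ Q, Q = cj c t β l - cj c t β j := ⟨_, rfl⟩
  have o1 : (P * u₁).re = 0 := by rw [hP]; exact hc k j u₁ b1 a1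
  have o2 : (Q * u₂).re = 0 := by rw [hQ]; exact hc l j u₂ b2 a2
  rw [← hP, ← hQ] at h
  have hne : (u₂ * conj u₁).im ≠ 0 := by
    intro h0
    have e1 : ((Q * u₂) * conj (P * u₁)).im = 0 := by
      rw [Complex.mul_im, Complex.conj_re, Complex.conj_im, o1, o2]
      ring
    have e2 : (Q * u₂) * conj (P * u₁) = (Q * conj P) * (u₂ * conj u₁) := by
      rw [map_mul]; ring
    rw [e2, Complex.mul_im, h0, mul_zero, zero_add] at e1
    have e3 := (mul_eq_zero.1 e1).resolve_left h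
    have e4 : u₂ * conj u₁ = 0 := Complex.ext e3 h0
    rcases mul_eq_zero.1 e4 with h5 | h5
    · exact hu2 h5
    · exact hu1 ((map_eq_zero _).1 h5)
  obtain ⟨a, b, hab⟩ := hRT β hβ j u₁ u₂ 1 a1 a2 hj hne
  have hx1 : (a : ℂ) * u₁ - 1 = (b : ℂ) * u₂ := by linear_combination -hab
  have c1 := gq_smul a a1
  have c2 := gq_smul a b1
  have c3 := gq_smul b a2
  have c4 := gq_smul b b2
  refine ⟨(a : ℂ) * u₁, c1, c2, ?_, ?_, ?_, ?_⟩
  · rw [hx1]; exact c3
  · rw [hx1]; exact c4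
  · exact hc k j _ c2 c1
  · rw [hx1]
    exact hc l j _ c4 c3

theorem dt_smul (r : ℝ) (p q : ℂ) : dt p ((r : ℂ) * q) = r * dt p q := by
  unfold dt
  simp only [Complex.mul_im, Complex.mul_re, Complex.ofReal_re, Complex.ofReal_im]
  ring

theorem smul_dt (r : ℝ) (p q : ℂ) : dt ((r : ℂ) * p) q = r * dt p q := by
  unfold dt
  rw [map_mul, Complex.conj_ofReal]
  simp only [Complex.mul_im, Complex.mul_re, Complex.ofReal_re, Complex.ofReal_im]
  ring

theorem dt_eq (q y d : ℂ) (h : (q * y).re = 0) :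
    dt y d * Complex.normSq q = -((q * y).im * (q * d).re) := by
  unfold dt
  rw [Complex.normSq_apply]
  simp only [Complex.mul_im, Complex.mul_re, Complex.conj_re, Complex.conj_im] at h ⊢
  linear_combination (q.re * d.im + q.im * d.re) * h

/-- Cramer. -/
theorem cramer (y E d : ℂ) : (dt E d : ℂ) * y = (dt y d : ℂ) * E + (dt E y : ℂ) * d := by
  unfold dt
  apply Complex.ext
  · simp only [Complex.mul_im, Complex.mul_re, Complex.add_re, Complex.add_im, Complex.conj_re,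
      Complex.conj_im, Complex.ofReal_re, Complex.ofReal_im]
    ring
  · simp only [Complex.mul_im, Complex.mul_re, Complex.add_re, Complex.add_im, Complex.conj_re,
      Complex.conj_im, Complex.ofReal_re, Complex.ofReal_im]
    ring

theorem near {z w u : ℂ} {ρ κ : ℝ} (hκ : 0 < κ) (h1 : ‖z - (κ : ℂ) * u‖ ≤ ρ / 4 * κ)
    (h2 : ‖w‖ < ρ / 4 * κ) : ‖(z - w) / (κ : ℂ) - u‖ < ρ := by
  have hk : (κ : ℂ) ≠ 0 := by exact_mod_cast hκ.ne'
  have e : (z - w) / (κ : ℂ) - u = ((z - (κ : ℂ) * u) - w) / (κ : ℂ) := by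
    field_simp
    ring
  rw [e, norm_div, Complex.norm_real, Real.norm_eq_abs, abs_of_pos hκ, div_lt_iff₀ hκ]
  have h3 := norm_sub_le (z - (κ : ℂ) * u) w
  have h4 : 0 ≤ ‖w‖ := norm_nonneg w
  nlinarith

theorem om_mul_w0 : om * w0 = w0 + 1 := by
  have h := s3'
  unfold om w0
  apply Complex.ext
  · simp only [Complex.mul_re, Complex.add_re, Complex.one_re]
    linear_combination (1 / 12) * h
  · simp only [Complex.mul_im, Complex.add_im, Complex.one_im]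
    ring

theorem w0_ne : w0 ≠ 0 := by
  intro h
  have := congrArg Complex.re h
  simp [w0] at this

theorem norm_ps {e : ℝ} (he : e * e = 1) : ‖ps e‖ = 1 := by
  have h : Complex.normSq (ps e) = 1 := by
    simp only [ps, Complex.normSq_apply]
    linear_combination he + (e * e / 4) * s3
  rw [Complex.normSq_eq_norm_sq] at h
  exact (pow_eq_one_iff_of_nonneg (norm_nonneg _) two_ne_zero).1 h

theorem norm_qs {e : ℝ} (he : e * e = 1) : ‖qs e‖ = 1 := by
  have h := nsq_q he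
  rw [Complex.normSq_eq_norm_sq] at h
  exact (pow_eq_one_iff_of_nonneg (norm_nonneg _) two_ne_zero).1 h

end Pool.Agent.Helper56.UN
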