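import Pool.Agent.Helper56.UN.NT

/-!
# Project UN, part (E): configurations, conclusion
-/

set_option autoImplicit false
set_option linter.unusedSimpArgs false

open Set Filter Topology
open scoped ComplexConjugate

noncomputable section

namespace Pool.Agent.Helper56.UN

open Pool.Agent.Helper56.FM (Gq)
open Pool.Agent.Helper71.UN

/-- The configuration, from the points `x`, `x'` and the sign conditions. -/
theorem cfg_of {Γ : ℤ → ℂ → Prop} (hadd : ∀ l u u', Γ l u → Γ l u' → Γ l (u + u'))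
    (hneg : ∀ l u, Γ l u → Γ l (-u)) (hmul : ∀ l u (x : ℚ), Γ l u → Γ l ((x : ℂ) * u)) {η : ℝ} {k l : ℤ}
    (k0 : k ≠ 0) (k1 : k ≠ 1) (l0 : l ≠ 0) (l1 : l ≠ 1) (kl : k ≠ l) {x x' : ℂ}
    (g00 : Γ 0 1) (g01 : Γ 1 1)
    (a1 : Γ 0 x) (a2 : Γ k x) (a3 : Γ 0 (x - 1)) (a4 : Γ l (x - 1))
    (b1 : Γ 1 x') (b2 : Γ k x') (b3 : Γ 1 (x' - 1)) (b4 : Γ l (x' - 1))
    (hx : ‖x - xs‖ ≤ η * ‖w0‖) (hx' : ‖x' - xs‖ ≤ η * ‖w0‖)
    (h1 : 0 < dt (-w0 - x - (w0 + 1)) (x - x')) (h2 : 0 < dt (x - x') (-w0 - x - w0))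
    (h3 : 0 < dt (w0 + (w0 + 1)) (x - x')) (h4 : 0 < dt (x - 1) (x - x'))
    (h5 : 2 * dt (x - 1) (x - x') < dt (-w0 - x - (w0 + 1)) (x - x')) :
    ∃ (v₀ a a' τ : ℂ) (s θ : ℝ), Cfg Γ η k l v₀ a a' τ s θ := by
  obtain ⟨E, hE⟩ : ∃ E, E = -w0 - x - (w0 + 1) := ⟨_, rfl⟩
  obtain ⟨d, hd⟩ : ∃ d, d = x - x' := ⟨_, rfl⟩
  rw [← hE, ← hd] at h1 h5
  rw [← hd] at h2 h3 h4
  have hne : dt E d ≠ 0 := h1.ne'
  obtain ⟨s, hs⟩ : ∃ s, s = dt (x - 1) d / dt E d := ⟨_, rfl⟩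
  obtain ⟨κ, hκ⟩ : ∃ κ, κ = dt E (x - 1) / dt E d := ⟨_, rfl⟩
  have hs0 : 0 < s := by rw [hs]; exact div_pos h4 h1
  have hs1 : s < 1 / 2 := by
    rw [hs, div_lt_iff₀ h1]
    linarith
  obtain ⟨r, hr1, hr2⟩ := exists_rat_btwn (show -κ < s - κ by linarith)
  have hcr : x - 1 = (s : ℂ) * E + (κ : ℂ) * d := by
    have h := cramer (x - 1) E d
    have hne' : (dt E d : ℂ) ≠ 0 := by exact_mod_cast hne
    apply mul_left_cancel₀ hne'
    rw [h, hs, hκ]
    push_cast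
    field_simp
  have hθ : s * ((r + κ) / s) = r + κ := by field_simp
  have hom := om_mul_w0
  have hxs : xs = -(3 * w0 + 1) := by
    apply Complex.ext <;> simp [xs, w0] <;> ring
  refine ⟨w0, -(w0 + x), -(w0 + x'), -(-(w0 + x)) + (r : ℂ) * d - 0, s, (r + κ) / s, ?_⟩
  have hdk : Γ k d := by
    have := hadd k x (-x') a2 (hneg k x' b2)
    rwa [← sub_eq_add_neg, ← hd] at this
  have hdl : Γ l d := by
    have := hadd l (x - 1) (-(x' - 1)) a4 (hneg l (x' - 1) b4)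
    have e : x - 1 + -(x' - 1) = d := by rw [hd]; ring
    rwa [e] at this
  have hτ : -(-(w0 + x)) + (r : ℂ) * d - 0 + -(w0 + x) = (r : ℂ) * d := by ring
  constructor
  · exact k0
  · exact k1
  · exact l0
  · exact l1
  · exact kl
  · exact w0_ne
  · have e : -(w0 + x) - (w0 + om * w0) = -(x - xs) := by rw [hom, hxs]; ring
    rw [e, norm_neg]
    exact hx
  · have e : -(w0 + x') - (w0 + om * w0) = -(x' - xs) := by rw [hom, hxs]; ring
    rw [e, norm_neg]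
    exact hx'
  · have e1 : -(w0 + x) - om * w0 = E := by rw [hom, hE]; ring
    have e2 : -(w0 + x') - -(w0 + x) = d := by rw [hd]; ring
    rw [e1, e2]; exact h1
  · have e1 : -(w0 + x) - w0 = -w0 - x - w0 := by ring
    have e2 : -(w0 + x') - -(w0 + x) = d := by rw [hd]; ring
    rw [e1, e2]; exact h2
  · have e2 : -(w0 + x') - -(w0 + x) = d := by rw [hd]; ring
    rw [hom, e2]; exact h3
  · exact hs0
  · exact hs1
  · apply div_pos _ hs0
    linarith
  · rw [div_lt_one hs0]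
    linarith
  · have e1 : -(w0 + x) - om * w0 = E := by rw [hom, hE]; ring
    have e2 : -(w0 + x') - -(w0 + x) = d := by rw [hd]; ring
    rw [e1, e2, hom]
    have hθ' : (s : ℂ) * ((((r + κ) / s : ℝ)) : ℂ) = (r : ℂ) + (κ : ℂ) := by
      rw [← Complex.ofReal_mul, hθ]
      push_cast
      ring
    have hx1 : x = (s : ℂ) * E + (κ : ℂ) * d + 1 := by linear_combination hcr
    linear_combination (-d) * hθ' + hx1
  · rw [hom]
    have e : w0 + 1 - w0 = 1 := by ring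
    rw [e]; exact g00
  · rw [hom]
    have e : w0 + 1 - w0 = 1 := by ring
    rw [e]; exact g01
  · have e : w0 + -(w0 + x) = -x := by ring
    rw [e]; exact hneg _ _ a1
  · have e : w0 + -(w0 + x) = -x := by ring
    rw [e]; exact hneg _ _ a2
  · have e : om * w0 + -(w0 + x) = -(x - 1) := by rw [hom]; ring
    rw [e]; exact hneg _ _ a3
  · have e : om * w0 + -(w0 + x) = -(x - 1) := by rw [hom]; ring
    rw [e]; exact hneg _ _ a4
  · have e : w0 + -(w0 + x') = -x' := by ring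
    rw [e]; exact hneg _ _ b1
  · have e : w0 + -(w0 + x') = -x' := by ring
    rw [e]; exact hneg _ _ b2
  · have e : om * w0 + -(w0 + x') = -(x' - 1) := by rw [hom]; ring
    rw [e]; exact hneg _ _ b3
  · have e : om * w0 + -(w0 + x') = -(x' - 1) := by rw [hom]; ring
    rw [e]; exact hneg _ _ b4
  · rw [hτ]; exact hmul _ _ _ hdk
  · rw [hτ]; exact hmul _ _ _ hdl

end Pool.Agent.Helper56.UN
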