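import Pool.Agent.Helper56.UN.NT2

/-!
# Project UN, part (E): the statement `StNT` from the modules
-/

set_option autoImplicit false
set_option linter.unusedSimpArgs false

open Set Filter Topology
open scoped ComplexConjugate

noncomputable section

namespace Pool.Agent.Helper56.UN

open Pool.Agent.Helper56.FM (Gq)
open Pool.Agent.Helper71.UN

theorem re_div {z x : ℂ} {κ : ℝ} (h : (z * x).re = 0) : (z / (κ : ℂ) * x).re = 0 := by
  have e : z / (κ : ℂ) * x = ((κ⁻¹ : ℝ) : ℂ) * (z * x) := by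
    push_cast
    ring
  rw [e, Complex.re_ofReal_mul, h, mul_zero]

theorem re_div' (z x : ℂ) (κ : ℝ) : (z / (κ : ℂ) * x).re = κ⁻¹ * (z * x).re := by
  have e : z / (κ : ℂ) * x = ((κ⁻¹ : ℝ) : ℂ) * (z * x) := by
    push_cast
    ring
  rw [e, Complex.re_ofReal_mul]

theorem im_div {z w : ℂ} {κ μ : ℝ} (hκ : κ ≠ 0) (hμ : μ ≠ 0) :
    (z / (κ : ℂ) * conj (w / (μ : ℂ))).im ≠ 0 ↔ (z * conj w).im ≠ 0 := by
  have e : z / (κ : ℂ) * conj (w / (μ : ℂ)) = ((κ⁻¹ * μ⁻¹ : ℝ) : ℂ) * (z * conj w) := by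
    rw [map_div₀, Complex.conj_ofReal]
    push_cast
    ring
  rw [e, Complex.im_ofReal_mul]
  constructor
  · intro h h'
    apply h
    rw [h', mul_zero]
  · intro h
    exact mul_ne_zero (mul_ne_zero (inv_ne_zero hκ) (inv_ne_zero hμ)) h

/-- The sign conditions, from `Good`. -/
theorem signs {e η g κ μ : ℝ} (he : e * e = 1) (heg : 0 < e * g) (hκ : 0 < κ) (hμ : 0 < μ)
    {c₀ ck cl x x' : ℂ}
    (hG : Good e η ((ck - c₀) / (κ : ℂ), (cl - c₀) / (μ : ℂ), (ck - (c₀ + g * Complex.I)) / (κ : ℂ),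
      (cl - (c₀ + g * Complex.I)) / (μ : ℂ), κ / μ))
    (h1 : ((ck - c₀) * x).re = 0) (h2 : ((cl - c₀) * (x - 1)).re = 0)
    (h3 : ((ck - (c₀ + g * Complex.I)) * x').re = 0)
    (h4 : ((cl - (c₀ + g * Complex.I)) * (x' - 1)).re = 0) :
    ‖x - xs‖ < η ∧ ‖x' - xs‖ < η ∧ 0 < dt (-w0 - x - (w0 + 1)) (x - x') ∧
    0 < dt (x - x') (-w0 - x - w0) ∧ 0 < dt (w0 + (w0 + 1)) (x - x') ∧ 0 < dt (x - 1) (x - x') ∧
    2 * dt (x - 1) (x - x') < dt (-w0 - x - (w0 + 1)) (x - x') := by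
  obtain ⟨p, hp⟩ : ∃ p, p = (ck - c₀) / (κ : ℂ) := ⟨_, rfl⟩
  obtain ⟨q, hq⟩ : ∃ q, q = (cl - c₀) / (μ : ℂ) := ⟨_, rfl⟩
  obtain ⟨p', hp'⟩ : ∃ p', p' = (ck - (c₀ + g * Complex.I)) / (κ : ℂ) := ⟨_, rfl⟩
  obtain ⟨q', hq'⟩ : ∃ q', q' = (cl - (c₀ + g * Complex.I)) / (μ : ℂ) := ⟨_, rfl⟩
  obtain ⟨m, hm⟩ : ∃ m, m = κ / μ := ⟨_, rfl⟩
  rw [← hp, ← hq, ← hp', ← hq', ← hm] at hG
  obtain ⟨n1, n2, n3, m1, m2, m3, m4, m5, m6, m7⟩ := hG
  simp only at n1 n2 n3 m1 m2 m3 m4 m5 m6 m7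
  have ex : x = FF p q := FF_uniq n1 (by rw [hp]; exact re_div h1) (by rw [hq]; exact re_div h2)
  have ex' : x' = FF p' q' := FF_uniq n2 (by rw [hp']; exact re_div h3) (by rw [hq']; exact re_div h4)
  have hg : g ≠ 0 := by
    rintro rfl
    rw [mul_zero] at heg
    exact lt_irrefl _ heg
  have hmpos : 0 < m := by rw [hm]; exact div_pos hκ hμ
  -- the factor
  obtain ⟨f, hf⟩ : ∃ f : ℝ, f = κ * (e / g) := ⟨_, rfl⟩
  have heg' : 0 < e / g := by
    have h : e / g = e * g / g ^ 2 := by field_simp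
    rw [h]
    positivity
  have hfpos : 0 < f := by rw [hf]; exact mul_pos hκ heg'
  have i1 : ((ck - (c₀ + g * Complex.I)) * (x - x')).re = g * x.im := by
    have e1 : (ck - (c₀ + g * Complex.I)) * (x - x') =
        (ck - c₀) * x - (ck - (c₀ + g * Complex.I)) * x' - (g : ℂ) * (Complex.I * x) := by ring
    rw [e1, Complex.sub_re, Complex.sub_re, h1, h3, Complex.re_ofReal_mul, Complex.I_mul_re]
    ring
  have i2 : ((cl - (c₀ + g * Complex.I)) * (x - x')).re = g * x.im := by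
    have e1 : (cl - (c₀ + g * Complex.I)) * (x - x') =
        (cl - c₀) * (x - 1) - (cl - (c₀ + g * Complex.I)) * (x' - 1) -
          (g : ℂ) * (Complex.I * (x - 1)) := by ring
    rw [e1, Complex.sub_re, Complex.sub_re, h2, h4, Complex.re_ofReal_mul, Complex.I_mul_re,
      Complex.sub_im, Complex.one_im]
    ring
  have j1 : (p' * ((f : ℂ) * (x - x'))).re = e * x.im := by
    rw [hp', re_div']
    have e1 : (ck - (c₀ + g * Complex.I)) * ((f : ℂ) * (x - x')) =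
        (f : ℂ) * ((ck - (c₀ + g * Complex.I)) * (x - x')) := by ring
    rw [e1, Complex.re_ofReal_mul, i1, hf]
    field_simp
  have j2 : (q' * ((f : ℂ) * (x - x'))).re = m * (e * x.im) := by
    rw [hq', re_div']
    have e1 : (cl - (c₀ + g * Complex.I)) * ((f : ℂ) * (x - x')) =
        (f : ℂ) * ((cl - (c₀ + g * Complex.I)) * (x - x')) := by ring
    rw [e1, Complex.re_ofReal_mul, i2, hf, hm]
    field_simp
  have ed : (f : ℂ) * (x - x') = GG p' q' (e * x.im) (m * (e * x.im)) := GG_uniq n3 j1 j2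
  rw [← ex, ← ed] at m3 m4 m5 m7
  rw [← ex] at m1 m6
  rw [← ex'] at m2 m6 m7
  rw [dt_smul] at m3 m5 m7
  rw [smul_dt] at m4
  -- the last determinant
  have hq0 : Complex.normSq q ≠ 0 := by
    intro h
    rw [Complex.normSq_eq_zero] at h
    apply n1
    rw [h, zero_mul, Complex.zero_im]
  have hqy : (q * (x - 1)).re = 0 := by rw [hq]; exact re_div h2
  have hqd : (q * ((f : ℂ) * (x - x'))).re = m * (e * x'.im) := by
    have e1 : q * ((f : ℂ) * (x - x')) = q' * ((f : ℂ) * (x - x')) +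
        ((f * (g / μ) : ℝ) : ℂ) * (Complex.I * (x - x')) := by
      rw [hq, hq']
      push_cast
      ring
    rw [e1, Complex.add_re, j2, Complex.re_ofReal_mul, Complex.I_mul_re, hf, hm, Complex.sub_im]
    field_simp
    ring
  have hdt : dt (x - 1) ((f : ℂ) * (x - x')) = m * WW e q (x - 1) x'.im := by
    have h5 := dt_eq q (x - 1) ((f : ℂ) * (x - x')) hqy
    rw [hqd] at h5
    unfold WW
    obtain ⟨Y, hY⟩ : ∃ Y, Y = (q * (x - 1)).im := ⟨_, rfl⟩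
    rw [← hY] at h5 ⊢
    rw [← mul_div_assoc, eq_div_iff hq0]
    linear_combination h5
  have hdt0 : 0 < dt (x - 1) ((f : ℂ) * (x - x')) := by rw [hdt]; exact mul_pos hmpos m6
  rw [← hdt] at m7
  rw [dt_smul] at m7 hdt0
  refine ⟨m1, m2, pos_of_mul_pos_right m3 hfpos.le, pos_of_mul_pos_right m4 hfpos.le,
    pos_of_mul_pos_right m5 hfpos.le, pos_of_mul_pos_right hdt0 hfpos.le, ?_⟩
  have h6 : f * (2 * dt (x - 1) (x - x')) < f * dt (-w0 - x - (w0 + 1)) (x - x') := by linarith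
  exact lt_of_mul_lt_mul_left h6 hfpos.le

/-- **NT**, from the modules. -/
theorem nt_of (hCC : StCC) (hIN : StIN) (hRT : StRT) (hFR : StFR) : StNT := by
  intro β p q r him hcub hirr hn η hη
  obtain ⟨t, hC⟩ := exists_real him hcub hirr hn
  have hβ : β ≠ 0 := by
    rintro rfl
    exact him Complex.zero_im
  obtain ⟨c, hc0, hc1, hcne, hcc⟩ := hCC β p q r t hC
  have e0 : cj c t β 0 = c := by unfold cj; rw [zpow_zero, mul_one]
  obtain ⟨g, hg⟩ : ∃ g : ℝ, g = (cj c t β 1 - c).im := ⟨_, rfl⟩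
  have e1 : cj c t β 1 = c + (g : ℂ) * Complex.I := by
    apply Complex.ext
    · rw [hc1, Complex.add_re, hc0]; simp
    · rw [hg]; simp
  have hg0 : g ≠ 0 := by
    intro h
    apply hcne
    rw [e1, h]
    simp
  obtain ⟨e, he, heg⟩ : ∃ e : ℝ, e * e = 1 ∧ 0 < e * g := by
    rcases lt_or_gt_of_ne hg0 with h | h
    · exact ⟨-1, by norm_num, by linarith⟩
    · exact ⟨1, by norm_num, by linarith⟩
  have hη' : 0 < η * ‖w0‖ := mul_pos hη (norm_pos_iff.2 w0_ne)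
  obtain ⟨ρ, hρ, hball⟩ := Metric.eventually_nhds_iff.1 (good_ev he hη')
  have hcnz : c ≠ 0 := by
    intro h
    rw [h] at hc0
    simp at hc0
  have hρ4 : 0 < ρ / 4 := by positivity
  have hn0 : 0 ≤ ‖c‖ := norm_nonneg _
  have hn1 : 0 ≤ ‖cj c t β 1‖ := norm_nonneg _
  -- the label `k`
  obtain ⟨k, hk1, hk2⟩ := hFR β p q r t hC c (ps e) hcnz (norm_ps he) (ρ / 4) hρ4
    ((‖c‖ + ‖cj c t β 1‖ + 1) * (4 / ρ + 1))
  obtain ⟨κ, hκ⟩ : ∃ κ, κ = ‖cj c t β k‖ := ⟨_, rfl⟩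
  rw [← hκ] at hk1 hk2
  have hr4 : 0 < 4 / ρ := by positivity
  have hκ1 : ‖c‖ + ‖cj c t β 1‖ + 1 < κ := by
    have : (‖c‖ + ‖cj c t β 1‖ + 1) * 1 ≤ (‖c‖ + ‖cj c t β 1‖ + 1) * (4 / ρ + 1) := by
      apply mul_le_mul_of_nonneg_left _ (by positivity)
      linarith
    linarith
  have hκ2 : ‖c‖ + ‖cj c t β 1‖ + 1 < ρ / 4 * κ := by
    have h : (‖c‖ + ‖cj c t β 1‖ + 1) * (4 / ρ) < κ := by
      have : (‖c‖ + ‖cj c t β 1‖ + 1) * (4 / ρ + 1) = (‖c‖ + ‖cj c t β 1‖ + 1) * (4 / ρ) +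
        (‖c‖ + ‖cj c t β 1‖ + 1) := by ring
      linarith
    have h' : ρ / 4 * ((‖c‖ + ‖cj c t β 1‖ + 1) * (4 / ρ)) < ρ / 4 * κ :=
      mul_lt_mul_of_pos_left h hρ4
    have h'' : ρ / 4 * ((‖c‖ + ‖cj c t β 1‖ + 1) * (4 / ρ)) = ‖c‖ + ‖cj c t β 1‖ + 1 := by
      field_simp
    linarith
  have hκpos : 0 < κ := by linarith
  -- the label `l`
  obtain ⟨l, hl1, hl2⟩ := hFR β p q r t hC c (qs e) hcnz (norm_qs he) (ρ / 4) hρ4
    (κ * (1 / ρ + 1))
  obtain ⟨μ, hμ⟩ : ∃ μ, μ = ‖cj c t β l‖ := ⟨_, rfl⟩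
  rw [← hμ] at hl1 hl2
  have hμ1 : κ < μ := by
    have : κ * 1 ≤ κ * (1 / ρ + 1) := by
      apply mul_le_mul_of_nonneg_left _ hκpos.le
      have : 0 < 1 / ρ := by positivity
      linarith
    linarith
  have hμpos : 0 < μ := by linarith
  have hm : κ / μ < ρ := by
    rw [div_lt_iff₀ hμpos]
    have h1 : κ * (1 / ρ) < μ := by
      have : κ * (1 / ρ + 1) = κ * (1 / ρ) + κ := by ring
      linarith
    have h2 : ρ * (κ * (1 / ρ)) < ρ * μ := mul_lt_mul_of_pos_left h1 hρ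
    have h3 : ρ * (κ * (1 / ρ)) = κ := by field_simp
    linarith
  -- the point is near the limit
  have near1 : ‖(cj c t β k - c) / (κ : ℂ) - ps e‖ < ρ := near hκpos hk2 (by linarith)
  have near2 : ‖(cj c t β l - c) / (μ : ℂ) - qs e‖ < ρ := near hμpos hl2 (by nlinarith)
  have near3 : ‖(cj c t β k - cj c t β 1) / (κ : ℂ) - ps e‖ < ρ := near hκpos hk2 (by linarith)
  have near4 : ‖(cj c t β l - cj c t β 1) / (μ : ℂ) - qs e‖ < ρ := near hμpos hl2 (by nlinarith)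
  have hG : Good e (η * ‖w0‖) ((cj c t β k - c) / (κ : ℂ), (cj c t β l - c) / (μ : ℂ),
      (cj c t β k - cj c t β 1) / (κ : ℂ), (cj c t β l - cj c t β 1) / (μ : ℂ), κ / μ) := by
    apply hball
    rw [Prod.dist_eq, Prod.dist_eq, Prod.dist_eq, Prod.dist_eq]
    refine max_lt ?_ (max_lt ?_ (max_lt ?_ (max_lt ?_ ?_)))
    · rw [dist_eq_norm]; exact near1
    · rw [dist_eq_norm]; exact near2
    · rw [dist_eq_norm]; exact near3
    · rw [dist_eq_norm]; exact near4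
    · rw [Real.dist_eq, sub_zero, abs_of_pos (div_pos hκpos hμpos)]
      exact hm
  have hG' := hG
  obtain ⟨n1, n2, -⟩ := hG'
  simp only at n1 n2
  rw [im_div hμpos.ne' hκpos.ne'] at n1 n2
  have n1' : ((cj c t β l - cj c t β 0) * conj (cj c t β k - cj c t β 0)).im ≠ 0 := by
    rw [e0]; exact n1
  obtain ⟨x, a1, a2, a3, a4, a5, a6⟩ := solve hIN hRT hC hβ hcc (gq_zero_one β) n1'
  obtain ⟨x', b1, b2, b3, b4, b5, b6⟩ := solve hIN hRT hC hβ hcc (gq_one_one hβ) n2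
  rw [e0] at a5 a6
  rw [e1] at b5 b6 hG
  obtain ⟨s1, s2, s3, s4, s5, s6, s7⟩ := signs he heg hκpos hμpos hG a5 a6 b5 b6
  have k0 : k ≠ 0 := by
    rintro rfl
    rw [e0] at hκ
    linarith
  have k1 : k ≠ 1 := by
    rintro rfl
    linarith
  have l0 : l ≠ 0 := by
    rintro rfl
    rw [e0] at hμ
    linarith
  have l1 : l ≠ 1 := by
    rintro rfl
    linarith
  have kl : k ≠ l := by
    rintro rfl
    linarith
  obtain ⟨v₀, a, a', τ, s, θ, hcfg⟩ := cfg_of (Γ := Gq β) (η := η) (fun l u u' h h' => gq_add h h')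
    (fun l u h => gq_neg h)
    (fun l u x h => gq_smul x h) k0 k1 l0 l1 kl (gq_zero_one β) (gq_one_one hβ) a1 a2 a3 a4 b1 b2 b3 b4
    s1.le s2.le s3 s4 s5 s6 s7
  exact ⟨k, l, v₀, a, a', τ, s, θ, hcfg⟩

end Pool.Agent.Helper56.UN
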