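import Pool.Agent.Helper56.UN.MainOf
import Pool.Agent.Helper48.UN.M_TR
import Pool.Agent.Helper27.UN.M_CC
import Pool.Agent.Helper27.UN.M_FR
import Pool.Agent.Helper34.UN.M_IN
import Pool.Agent.Helper32.UN.M_RT
import Pool.Agent.Helper37.UN.M_MD
import Pool.Agent.Helper8.UN.M_RE
import Pool.Agent.Helper33.UN.M_DN

/-! # Project UN: part (E), complete -/

set_option autoImplicit false

namespace Pool.Agent.Helper56.UN

theorem pNT : Pool.Agent.Helper71.UN.StNT :=
  nt_of (Pool.Agent.Helper27.UN.m_CC Pool.Agent.Helper48.UN.m_TR) Helper34.UN.m_IN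
    Pool.Agent.Helper32.UN.m_RT
    (Pool.Agent.Helper27.UN.m_FR Pool.Agent.Helper37.UN.m_MD Helper8.UN.m_RE
      Helper33.UN.m_DN)

end Pool.Agent.Helper56.UN
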